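import Pool.Agent.T2h7.Csp.CorDefs
import Pool.Agent.H763R2.An.A

/-! One-sided cones: a point with one-sided cones of small slope is locally monotone or a Lipschitz
cusp. -/

set_option autoImplicit false
open Set Complex
open scoped ComplexConjugate

namespace Pool.Agent.T2h7.Csp

open Pool.Agent.H763R2.An (Inj)

variable {c : ℝ → ℂ} {t κ L : ℝ}

/-- rotated cones -/
theorem cone_rot {κ : ℝ} {z s : ℂ} (hs : |s.im| ≤ κ * s.re)
    (hz : κ * |z.im| < 1 + z.re) (h0 : 0 < s.re) : 0 < ((1 + z) * s).re := by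
  have e : ((1 + z) * s).re = (1 + z.re) * s.re - z.im * s.im := by simp
  rw [e]
  have h1 : z.im * s.im ≤ |z.im| * (κ * s.re) := by
    refine (le_abs_self _).trans ?_
    rw [abs_mul]
    exact mul_le_mul_of_nonneg_left hs (abs_nonneg _)
  nlinarith

theorem cone_rot2 {κ L : ℝ} {z s : ℂ} (hs : |s.im| ≤ κ * s.re) (hκ : 0 ≤ κ)
    (hL : 2 * κ ≤ L * (1 - κ ^ 2)) (hL0 : 0 ≤ L) (h0 : 0 ≤ s.re) (hz : |z.im| ≤ κ * (1 - z.re))
    (hz1 : 0 ≤ 1 - z.re) :
    |((1 - z) * s).im| ≤ L * ((1 - z) * s).re := by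
  have e1 : ((1 - z) * s).re = (1 - z.re) * s.re + z.im * s.im := by simp
  have e2 : ((1 - z) * s).im = (1 - z.re) * s.im - z.im * s.re := by simp; ring
  rw [e1, e2]
  have h1 : |z.im * s.im| ≤ (κ * (1 - z.re)) * (κ * s.re) := by
    rw [abs_mul]
    exact mul_le_mul hz hs (abs_nonneg _) (by positivity)
  have h2 : |(1 - z.re) * s.im - z.im * s.re| ≤
      (1 - z.re) * (κ * s.re) + (κ * (1 - z.re)) * s.re := by
    refine (abs_sub _ _).trans ?_
    rw [abs_mul, abs_mul, abs_of_nonneg hz1, abs_of_nonneg h0]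
    exact add_le_add (mul_le_mul_of_nonneg_left hs hz1) (mul_le_mul_of_nonneg_right hz h0)
  have h3 := (abs_le.1 h1).1
  have h4 : 0 ≤ (1 - z.re) * s.re := mul_nonneg hz1 h0
  calc |(1 - z.re) * s.im - z.im * s.re| ≤ 2 * κ * ((1 - z.re) * s.re) := by linarith
    _ ≤ L * (1 - κ ^ 2) * ((1 - z.re) * s.re) := mul_le_mul_of_nonneg_right hL h4
    _ = L * ((1 - z.re) * s.re - (κ * (1 - z.re)) * (κ * s.re)) := by ring
    _ ≤ L * ((1 - z.re) * s.re + z.im * s.im) := mul_le_mul_of_nonneg_left (by linarith) hL0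

/-- normalization of the direction -/
theorem exUnit {κ : ℝ} {u0 : ℂ} (hu0 : u0 ≠ 0) {P : ℝ → ℝ → Prop}
    (h : ∀ x y, P x y → |(u0 * (c y - c x)).im| ≤ κ * (u0 * (c y - c x)).re) :
    ∃ u : ℂ, u * conj u = 1 ∧
      ∀ x y, P x y → |(u * (c y - c x)).im| ≤ κ * (u * (c y - c x)).re := by
  have hn : (0:ℝ) < ‖u0‖ := norm_pos_iff.2 hu0
  refine ⟨((‖u0‖⁻¹ : ℝ) : ℂ) * u0, ?_, fun x y h1 => ?_⟩
  · rw [map_mul, conj_ofReal, show ((‖u0‖⁻¹ : ℝ) : ℂ) * u0 * (((‖u0‖⁻¹ : ℝ) : ℂ) * conj u0) =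
      (((‖u0‖⁻¹ : ℝ) : ℂ) * ((‖u0‖⁻¹ : ℝ) : ℂ)) * (u0 * conj u0) by ring, mul_conj,
      normSq_eq_norm_sq]
    rw [← ofReal_mul, ← ofReal_mul, ← ofReal_one]
    congr 1
    field_simp
  · rw [mul_assoc, re_ofReal_mul, im_ofReal_mul, abs_mul, abs_of_pos (inv_pos.2 hn)]
    have := mul_le_mul_of_nonneg_left (h x y h1) (inv_pos.2 hn).le
    linarith

theorem re_pos_of_cone {κ : ℝ} {u p : ℂ} (hκ : 0 < κ) (hu : u * conj u = 1) (hp : p ≠ 0)
    (h : |(u * p).im| ≤ κ * (u * p).re) : 0 < (u * p).re := by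
  have h5 := (abs_nonneg _).trans h
  have h6 : 0 ≤ (u * p).re := by
    by_contra hcon
    push Not at hcon
    nlinarith
  rcases eq_or_lt_of_le h6 with h7 | h7
  · exfalso
    rw [← h7, mul_zero] at h
    have h8 : (u * p).im = 0 := abs_eq_zero.1 (le_antisymm h (abs_nonneg _))
    have h9 : u * p = 0 := Complex.ext h7.symm h8
    rcases mul_eq_zero.1 h9 with h | h
    · rw [h, zero_mul] at hu; exact zero_ne_one hu
    · exact hp h
  · exact h7

/-- a point with one-sided cones of small slope is locally monotone or a Lipschitz cusp -/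
theorem OneSided.cases (J : Inj c) (h : OneSided κ c t) (hκ : 0 < κ) (hκ1 : κ < 1)
    (hL : 2 * κ ≤ L * (1 - κ ^ 2)) : LocMono c t ∨ LipCusp L c t := by
  obtain ⟨ρ0, hρ0, u0, v0, hu0, hv0, hl0, hr0⟩ := h
  have hL0 : 0 ≤ L := by
    by_contra hcon
    push Not at hcon
    have : 0 < 1 - κ ^ 2 := by nlinarith
    nlinarith [mul_neg_of_neg_of_pos hcon this]
  obtain ⟨u, hu, hl1⟩ := exUnit (c := c) (κ := κ) hu0
    (P := fun x y => t - ρ0 < x ∧ x < y ∧ y ≤ t) (fun x y h => hl0 x y h.1 h.2.1 h.2.2)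
  obtain ⟨v, hv, hr1⟩ := exUnit (c := c) (κ := κ) hv0
    (P := fun x y => t ≤ x ∧ x < y ∧ y < t + ρ0) (fun x y h => hr0 x y h.1 h.2.1 h.2.2)
  obtain ⟨ρ, hρ, r1, r2⟩ : ∃ ρ > 0, ρ ≤ ρ0 ∧ ρ ≤ 1 / 2 :=
    ⟨min ρ0 (1 / 2), by positivity, min_le_left _ _, min_le_right _ _⟩
  have ne : ∀ x y, x < y → y < x + 1 → c y - c x ≠ 0 := fun x y h1 h2 h3 =>
    J x y h1 h2 (sub_eq_zero.1 h3).symm
  have posl : ∀ x y, t - ρ < x → x < y → y ≤ t → 0 < (u * (c y - c x)).re := fun x y h1 h2 h3 =>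
    re_pos_of_cone hκ hu (ne x y h2 (by linarith)) (hl1 x y ⟨by linarith, h2, h3⟩)
  have posr : ∀ x y, t ≤ x → x < y → y < t + ρ → 0 < (v * (c y - c x)).re := fun x y h1 h2 h3 =>
    re_pos_of_cone hκ hv (ne x y h2 (by linarith)) (hr1 x y ⟨h1, h2, by linarith⟩)
  obtain ⟨z, hz⟩ : ∃ z, z = v * conj u := ⟨_, rfl⟩
  have zu : z * u = v := by rw [hz, mul_assoc, mul_comm (conj u), hu, mul_one]
  have zv : conj z * v = u := by
    rw [hz, map_mul, conj_conj, show conj v * u * v = (v * conj v) * u by ring, hv, one_mul]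
  have z1 : z.re ^ 2 + z.im ^ 2 = 1 := by
    have : z * conj z = 1 := by
      rw [hz, map_mul, conj_conj, show v * conj u * (conj v * u) = (v * conj v) * (u * conj u) by
        ring, hu, hv, one_mul]
    rw [mul_conj] at this
    have h1 : normSq z = 1 := by exact_mod_cast this
    rw [normSq_apply] at h1
    linarith
  rcases lt_or_ge (κ * |z.im|) (1 + z.re) with hlt | hge
  · left
    have kl : ∀ x y, t - ρ < x → x < y → y ≤ t → 0 < ((u + v) * (c y - c x)).re := by
      intro x y h1 h2 h3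
      rw [show (u + v) * (c y - c x) = (1 + z) * (u * (c y - c x)) by rw [← zu]; ring]
      exact cone_rot (hl1 x y ⟨by linarith, h2, h3⟩) hlt (posl x y h1 h2 h3)
    have kr : ∀ x y, t ≤ x → x < y → y < t + ρ → 0 < ((u + v) * (c y - c x)).re := by
      intro x y h1 h2 h3
      rw [show (u + v) * (c y - c x) = (1 + conj z) * (v * (c y - c x)) by
        rw [add_mul 1, one_mul, ← mul_assoc, zv]; ring]
      refine cone_rot (hr1 x y ⟨h1, h2, by linarith⟩) ?_ (posr x y h1 h2 h3)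
      rw [conj_im, conj_re, abs_neg]; exact hlt
    refine ⟨ρ, hρ, u + v, fun x y hx hy hxy => ?_⟩
    rw [abs_lt] at hx hy
    rcases le_total y t with h1 | h1
    · exact kl x y (by linarith) hxy h1
    · rcases le_total t x with h2 | h2
      · exact kr x y h2 hxy (by linarith)
      · rcases eq_or_lt_of_le h1 with h3 | h3
        · exact kl x y (by linarith) hxy h3.symm.le
        · rcases eq_or_lt_of_le h2 with h4 | h4
          · exact kr x y h4.symm.le hxy (by linarith)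
          · have a1 := kl x t (by linarith) h4 le_rfl
            have a2 := kr t y le_rfl h3 (by linarith)
            rw [show (u + v) * (c y - c x) = (u + v) * (c t - c x) + (u + v) * (c y - c t) by
              ring, add_re]
            linarith
  · right
    have zre : z.re < 1 := by
      by_contra hcon
      push Not at hcon
      have : |z.im| ≤ 1 := by
        rw [← sq_le_one_iff_abs_le_one]; nlinarith
      nlinarith [abs_nonneg z.im]
    have him : |z.im| ≤ κ * (1 - z.re) := by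
      have h1 : |z.im| * |z.im| ≤ |z.im| * (κ * (1 - z.re)) := by
        rw [← sq, sq_abs]
        have h2 : z.im ^ 2 = (1 - z.re) * (1 + z.re) := by linarith
        rw [h2]
        have h3 : 0 < 1 - z.re := by linarith
        calc (1 - z.re) * (1 + z.re) ≤ (1 - z.re) * (κ * |z.im|) :=
              mul_le_mul_of_nonneg_left hge h3.le
          _ = |z.im| * (κ * (1 - z.re)) := by ring
      rcases eq_or_lt_of_le (abs_nonneg z.im) with h2 | h2
      · rw [← h2]; exact mul_nonneg hκ.le (by linarith)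
      · exact le_of_mul_le_mul_left h1 h2
    refine ⟨ρ, hρ, v - u, ?_, fun x y h1 h2 h3 => ?_, fun x y h1 h2 h3 => ?_⟩
    · intro h
      have h1 : v = u := sub_eq_zero.1 h
      have h2 : z = 1 := by rw [hz, h1]; exact hu
      rw [h2] at zre
      simp at zre
    · have e : -((v - u) * (c y - c x)) = (1 - z) * (u * (c y - c x)) := by rw [← zu]; ring
      have := cone_rot2 (hl1 x y ⟨by linarith, h2, h3⟩) hκ.le hL hL0 (posl x y h1 h2 h3).le him
        (by linarith)
      rw [← e, neg_im, neg_re, abs_neg] at this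
      exact this
    · have e : (v - u) * (c y - c x) = (1 - conj z) * (v * (c y - c x)) := by
        rw [sub_mul 1, one_mul, ← mul_assoc, zv]; ring
      have := cone_rot2 (z := conj z) (hr1 x y ⟨h1, h2, by linarith⟩) hκ.le hL hL0
        (posr x y h1 h2 h3).le (by rw [conj_im, conj_re, abs_neg]; exact him)
        (by rw [conj_re]; linarith)
      rw [← e] at this
      exact this

/-- one-sided cones of half-angle less than 22.5 degrees: locally monotone, or both branches are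
Lipschitz graphs with a constant less than one over the same half line -/
theorem OneSided.mono_or_fold (J : Inj c) (h : OneSided κ c t) (hκ : 0 < κ)
    (hκ1 : κ ^ 2 + 2 * κ < 1) : LocMono c t ∨ ∃ (L ρ : ℝ) (w : ℂ), 0 < L ∧ L < 1 ∧ 0 < ρ ∧ w ≠ 0 ∧
      (∀ x y, t - ρ < x → x < y → y ≤ t → |(w * (c y - c x)).im| ≤ L * (w * (c y - c x)).re) ∧
      (∀ x y, t ≤ x → x < y → y < t + ρ → |(w * (c x - c y)).im| ≤ L * (w * (c x - c y)).re) := by
  have h1 : 0 < 1 - κ ^ 2 := by linarith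
  rcases h.cases J hκ (by nlinarith) (L := 2 * κ / (1 - κ ^ 2)) (by
    rw [div_mul_cancel₀ _ h1.ne']) with h2 | ⟨ρ, hρ, w, hw, h2, h3⟩
  · exact Or.inl h2
  · refine Or.inr ⟨2 * κ / (1 - κ ^ 2), ρ, -w, by positivity, ?_, hρ, neg_ne_zero.2 hw,
      fun x y k1 k2 k3 => ?_, fun x y k1 k2 k3 => ?_⟩
    · rw [div_lt_one h1]; linarith
    · have := h2 x y k1 k2 k3
      rw [neg_mul, neg_im, neg_re, abs_neg]
      exact this
    · have := h3 x y k1 k2 k3
      rw [show -w * (c x - c y) = w * (c y - c x) by ring]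
      exact this

end Pool.Agent.T2h7.Csp
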