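import Pool.Agent.T2h7.Csp.CorDefs
import Pool.Agent.H763R2.An.A

/-! Curves with strong one-sided tangents and piecewise continuously differentiable curves have
one-sided cones of arbitrarily small slope. -/

set_option autoImplicit false
open Set Complex Topology
open scoped ComplexConjugate

namespace Pool.Agent.T2h7.Csp

variable {c : ℝ → ℂ} {t κ L : ℝ}

/-- `c` is continuously differentiable on closed one-sided neighbourhoods of `t` on both sides, with
one-sided derivatives at `t` that do not vanish -/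
def OneSidedC1 (c : ℝ → ℂ) (t : ℝ) : Prop :=
  (∃ a < t, ContDiffOn ℝ 1 c (Icc a t) ∧ derivWithin c (Icc a t) t ≠ 0) ∧
  ∃ b > t, ContDiffOn ℝ 1 c (Icc t b) ∧ derivWithin c (Icc t b) t ≠ 0

theorem cone_of_close {κ l : ℝ} {v p : ℂ} (hκ : 0 < κ) (hl : 0 ≤ l)
    (h : ‖p - l * v‖ ≤ κ / (1 + κ) * ‖v‖ * l) :
    |(conj v * p).im| ≤ κ * (conj v * p).re := by
  obtain ⟨ε, hε⟩ : ∃ ε, ε = κ / (1 + κ) := ⟨_, rfl⟩
  have h1 : ε * (1 + κ) = κ := by rw [hε]; field_simp
  rw [← hε] at h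
  have e : conj v * p = ((‖v‖ ^ 2 * l : ℝ) : ℂ) + conj v * (p - l * v) := by
    have : conj v * v = ((‖v‖ ^ 2 : ℝ) : ℂ) := by
      rw [mul_comm, mul_conj, normSq_eq_norm_sq]
    push_cast at this ⊢
    linear_combination (l : ℂ) * this
  have h2 : ‖conj v * (p - l * v)‖ ≤ ε * (‖v‖ ^ 2 * l) := by
    rw [norm_mul, norm_conj]
    calc ‖v‖ * ‖p - l * v‖ ≤ ‖v‖ * (ε * ‖v‖ * l) := mul_le_mul_of_nonneg_left h (norm_nonneg _)
      _ = ε * (‖v‖ ^ 2 * l) := by ring
  have h3 := (abs_re_le_norm (conj v * (p - l * v))).trans h2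
  have h4 := (abs_im_le_norm (conj v * (p - l * v))).trans h2
  rw [e, add_im, add_re, ofReal_im, ofReal_re, zero_add]
  have h5 := (abs_le.1 h3).1
  have h6 : 0 ≤ ‖v‖ ^ 2 * l := by positivity
  have h7 : ε * (‖v‖ ^ 2 * l) * (1 + κ) = κ * (‖v‖ ^ 2 * l) := by
    linear_combination (‖v‖ ^ 2 * l) * h1
  have h8 := mul_le_mul_of_nonneg_left h5 hκ.le
  linarith

/-- strong one-sided tangents -/
theorem StrongTan.oneSided (h : StrongTan c t) (hκ : 0 < κ) : OneSided κ c t := by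
  obtain ⟨u, v, hu, hv, h⟩ := h
  obtain ⟨ρ, hρ, h1, h2⟩ := h (κ / (1 + κ)) (by positivity)
  have hu0 : conj u ≠ 0 := by rw [map_ne_zero]; rintro rfl; simp at hu
  have hv0 : conj v ≠ 0 := by rw [map_ne_zero]; rintro rfl; simp at hv
  refine ⟨ρ, hρ, conj u, conj v, hu0, hv0, fun x y a1 a2 a3 => ?_, fun x y a1 a2 a3 => ?_⟩
  · refine cone_of_close hκ (norm_nonneg (c y - c x)) ?_
    rw [hu, mul_one]
    exact h1 x y a1 a2 a3
  · refine cone_of_close hκ (norm_nonneg (c y - c x)) ?_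
    rw [hv, mul_one]
    exact h2 x y a1 a2 a3

theorem c1_right {t b : ℝ} (hb : t < b) (h : ContDiffOn ℝ 1 c (Icc t b))
    (h0 : derivWithin c (Icc t b) t ≠ 0) (hκ : 0 < κ) : ∃ ρ > 0, ∃ v : ℂ, v ≠ 0 ∧
    ∀ x y, t ≤ x → x < y → y < t + ρ → |(v * (c y - c x)).im| ≤ κ * (v * (c y - c x)).re := by
  obtain ⟨v, hv⟩ : ∃ v, v = derivWithin c (Icc t b) t := ⟨_, rfl⟩
  rw [← hv] at h0
  have hd : DifferentiableOn ℝ c (Icc t b) := h.differentiableOn one_ne_zero
  have hc : ContinuousOn (derivWithin c (Icc t b)) (Icc t b) :=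
    h.continuousOn_derivWithin (uniqueDiffOn_Icc hb) le_rfl
  have hη : 0 < κ / (1 + κ) * ‖v‖ := mul_pos (by positivity) (norm_pos_iff.2 h0)
  obtain ⟨ρ, hρ, hρ'⟩ := Metric.continuousOn_iff.1 hc t ⟨le_rfl, hb.le⟩ _ hη
  refine ⟨min ρ (b - t), lt_min hρ (by linarith), conj v, by rwa [map_ne_zero],
    fun x y h1 h2 h3 => ?_⟩
  have hy : y < t + ρ := by linarith [min_le_left ρ (b - t)]
  have hyb : y < b := by linarith [min_le_right ρ (b - t)]
  refine cone_of_close hκ (by linarith : (0:ℝ) ≤ y - x) ?_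
  have key := (convex_Icc x y).norm_image_sub_le_of_norm_hasDerivWithin_le
    (f := fun z => c z - (z : ℂ) * v) (f' := fun z => derivWithin c (Icc t b) z - v)
    (C := κ / (1 + κ) * ‖v‖) (fun z hz => ?_) (fun z hz => ?_) (x := x) (y := y)
    ⟨le_rfl, h2.le⟩ ⟨h2.le, le_rfl⟩
  · rw [Real.norm_of_nonneg (by linarith : (0:ℝ) ≤ y - x)] at key
    have e : c y - c x - ((y - x : ℝ) : ℂ) * v = c y - (y : ℂ) * v - (c x - (x : ℂ) * v) := by
      push_cast; ring
    rw [e]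
    exact key
  · have h4 := (hd z ⟨by linarith [hz.1], by linarith [hz.2]⟩).hasDerivWithinAt.mono
      (Icc_subset_Icc h1 hyb.le : Icc x y ⊆ Icc t b)
    have h5 : HasDerivWithinAt (fun z : ℝ => (z : ℂ) * v) (1 * v) (Icc x y) z :=
      (Complex.ofRealCLM.hasDerivAt (x := z)).hasDerivWithinAt.mul_const v
    rw [one_mul] at h5
    exact h4.sub h5
  · have := hρ' z ⟨by linarith [hz.1], by linarith [hz.2]⟩ (by
      rw [Real.dist_eq, abs_of_nonneg (by linarith [hz.1])]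
      linarith [hz.2])
    rw [dist_eq_norm, ← hv] at this
    exact this.le

theorem OneSidedC1.oneSided (h : OneSidedC1 c t) (hκ : 0 < κ) : OneSided κ c t := by
  obtain ⟨⟨a, ha, h1, h2⟩, b, hb, h3, h4⟩ := h
  obtain ⟨ρ1, hρ1, v, hv0, hv⟩ := c1_right hb h3 h4 hκ
  have hmap : MapsTo (fun s : ℝ => -s) (Icc (-t) (-a)) (Icc a t) := fun s hs =>
    ⟨by linarith [hs.2], by linarith [hs.1]⟩
  have h5 : ContDiffOn ℝ 1 (fun s => c (-s)) (Icc (-t) (-a)) :=
    h1.comp (by fun_prop) hmap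
  have hd := (h1.differentiableOn one_ne_zero t ⟨ha.le, le_rfl⟩).hasDerivWithinAt
  have h6 : HasDerivWithinAt (fun s => c (-s)) (-derivWithin c (Icc a t) t) (Icc (-t) (-a))
      (-t) := by
    have e1 : HasDerivWithinAt (fun s : ℝ => -s) (-1) (Icc (-t) (-a)) (-t) :=
      (hasDerivAt_neg (-t)).hasDerivWithinAt
    have hd' : HasDerivWithinAt c (derivWithin c (Icc a t) t) (Icc a t) (-(-t)) := by
      rw [neg_neg]; exact hd
    have := hd'.scomp (-t) e1 hmap
    rw [neg_one_smul] at this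
    exact this
  obtain ⟨ρ2, hρ2, u, hu0, hu⟩ := c1_right (c := fun s => c (-s)) (t := -t) (b := -a)
    (by linarith) h5 (by
      rw [h6.derivWithin (uniqueDiffOn_Icc (by linarith : -t < -a) _ ⟨le_rfl, by linarith⟩)]
      exact neg_ne_zero.2 h2) hκ
  refine ⟨min ρ1 ρ2, lt_min hρ1 hρ2, -u, v, neg_ne_zero.2 hu0, hv0, fun x y h1 h2 h3 => ?_,
    fun x y h1 h2 h3 => hv x y h1 h2 (by linarith [min_le_left ρ1 ρ2])⟩
  have := hu (-y) (-x) (by linarith) (by linarith) (by linarith [min_le_right ρ1 ρ2])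
  simp only [neg_neg] at this
  rw [show -u * (c y - c x) = u * (c x - c y) by ring]
  exact this

end Pool.Agent.T2h7.Csp
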