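import Mathlib

/-! Squares with three vertices on two Lipschitz graphs with a common end: at arbitrarily small
scales the fourth vertex is above the upper graph (area argument). -/

set_option autoImplicit false
open Set

namespace Pool.Agent.T2h7.Csp

theorem le_of_sq {J : ℝ → ℝ} {C R : ℝ} (hR : 0 ≤ R) (hC : 0 ≤ C)
    (h : ∀ x y, 0 ≤ x → x ≤ y → y ≤ R → J y - J x ≤ C * (y - x) ^ 2) : J R ≤ J 0 := by
  have key : ∀ n : ℕ, 0 < n → J R - J 0 ≤ C * R ^ 2 / n := by
    intro n hn
    have hn' : (0:ℝ) < n := by exact_mod_cast hn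
    have h1 : ∑ i ∈ Finset.range n, (J (((i + 1 : ℕ) : ℝ) * (R / n)) - J ((i : ℝ) * (R / n))) =
        J R - J 0 := by
      rw [Finset.sum_range_sub (fun i : ℕ => J ((i : ℝ) * (R / n)))]
      congr 2
      · field_simp
      · simp
    rw [← h1]
    have h2 : ∑ i ∈ Finset.range n, (J (((i + 1 : ℕ) : ℝ) * (R / n)) - J ((i : ℝ) * (R / n))) ≤
        ∑ i ∈ Finset.range n, C * (R / n) ^ 2 := by
      refine Finset.sum_le_sum fun i hi => ?_
      have hi' : ((i + 1 : ℕ) : ℝ) ≤ n := by exact_mod_cast Finset.mem_range.1 hi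
      have hq : 0 ≤ R / n := by positivity
      have := h ((i : ℝ) * (R / n)) (((i + 1 : ℕ) : ℝ) * (R / n)) (by positivity)
        (mul_le_mul_of_nonneg_right (by push_cast; linarith) hq) (by
          calc ((i + 1 : ℕ) : ℝ) * (R / n) ≤ n * (R / n) := mul_le_mul_of_nonneg_right hi' hq
            _ = R := by field_simp)
      refine this.trans (le_of_eq ?_)
      push_cast
      ring
    refine h2.trans (le_of_eq ?_)
    rw [Finset.sum_const, Finset.card_range, nsmul_eq_mul]
    field_simp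
  by_contra hcon
  push Not at hcon
  obtain ⟨n, hn⟩ := exists_nat_gt (C * R ^ 2 / (J R - J 0))
  have hpos : 0 < J R - J 0 := by linarith
  have hn0 : 0 < n := by
    have : (0:ℝ) < n := lt_of_le_of_lt (by positivity) hn
    exact_mod_cast this
  have h3 := key n hn0
  have hn' : (0:ℝ) < n := by exact_mod_cast hn0
  rw [div_lt_iff₀ hpos] at hn
  rw [le_div_iff₀ hn'] at h3
  linarith

/-- a primitive of a Lipschitz function -/
theorem exPrim {f : ℝ → ℝ} (hf : ∀ x y, |f x - f y| ≤ |x - y| / 4) :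
    ∃ F : ℝ → ℝ, ∀ x y, |F y - F x - f x * (y - x)| ≤ (y - x) ^ 2 / 8 := by
  have cf : Continuous f := by
    rw [Metric.continuous_iff]
    intro b ε hε
    refine ⟨ε, hε, fun a ha => ?_⟩
    rw [Real.dist_eq] at ha ⊢
    have := hf a b
    have := abs_nonneg (a - b)
    linarith
  obtain ⟨F, hF⟩ : ∃ F : ℝ → ℝ, ∀ x, HasDerivAt F (f x) x :=
    ⟨fun x => ∫ t in (0:ℝ)..x, f t, fun x =>
      intervalIntegral.integral_hasDerivAt_right (cf.intervalIntegrable _ _)
        cf.aestronglyMeasurable.stronglyMeasurableAtFilter cf.continuousAt⟩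
  refine ⟨F, fun x y => ?_⟩
  have dF : Differentiable ℝ F := fun x => (hF x).differentiableAt
  -- the two comparison functions
  have dm : ∀ (s : ℝ) (z : ℝ), HasDerivAt (fun z => F z - f x * (z - x) - s * (z - x) ^ 2 / 8)
      (f z - f x - s * (z - x) / 4) z := by
    intro s z
    have h0 : HasDerivAt (fun z : ℝ => z - x) 1 z := (hasDerivAt_id z).sub_const x
    have h2 : HasDerivAt (fun z : ℝ => (z - x) * (z - x)) (1 * (z - x) + (z - x) * 1) z :=
      h0.mul h0
    have h3 := ((hF z).sub (h0.const_mul (f x))).sub (h2.const_mul (s / 8))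
    have e1 : (fun z => F z - f x * (z - x) - s * (z - x) ^ 2 / 8) =
        ((F - fun y => f x * (y - x)) - fun y => s / 8 * ((y - x) * (y - x))) := by
      funext z
      simp only [Pi.sub_apply]
      ring
    rw [e1]
    have e2 : f z - f x - s * (z - x) / 4 =
        f z - f x * 1 - s / 8 * (1 * (z - x) + (z - x) * 1) := by ring
    rw [e2]
    exact h3
  have cmp : ∀ s : ℝ, Continuous (fun z => F z - f x * (z - x) - s * (z - x) ^ 2 / 8) := fun s =>
    continuous_iff_continuousAt.2 fun z => (dm s z).continuousAt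
  rcases le_total x y with hxy | hxy
  · have h1 : F y - f x * (y - x) - 1 * (y - x) ^ 2 / 8 ≤
        F x - f x * (x - x) - 1 * (x - x) ^ 2 / 8 := by
      refine antitoneOn_of_deriv_nonpos (convex_Icc x y) (cmp 1).continuousOn
        (fun z _ => (dm 1 z).differentiableAt.differentiableWithinAt) (fun z hz => ?_)
        ⟨le_rfl, hxy⟩ ⟨hxy, le_rfl⟩ hxy
      rw [interior_Icc] at hz
      rw [(dm 1 z).deriv]
      have := (le_abs_self _).trans (hf z x)
      rw [abs_of_pos (by linarith [hz.1])] at this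
      linarith
    have h2 : F x - f x * (x - x) - (-1) * (x - x) ^ 2 / 8 ≤
        F y - f x * (y - x) - (-1) * (y - x) ^ 2 / 8 := by
      refine monotoneOn_of_deriv_nonneg (convex_Icc x y) (cmp (-1)).continuousOn
        (fun z _ => (dm (-1) z).differentiableAt.differentiableWithinAt) (fun z hz => ?_)
        ⟨le_rfl, hxy⟩ ⟨hxy, le_rfl⟩ hxy
      rw [interior_Icc] at hz
      rw [(dm (-1) z).deriv]
      have := (neg_abs_le _).trans' (neg_le_neg (hf z x))
      rw [abs_of_pos (by linarith [hz.1])] at this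
      linarith
    rw [abs_le]
    constructor <;> nlinarith
  · have h1 : F x - f x * (x - x) - (-1) * (x - x) ^ 2 / 8 ≤
        F y - f x * (y - x) - (-1) * (y - x) ^ 2 / 8 := by
      refine antitoneOn_of_deriv_nonpos (convex_Icc y x) (cmp (-1)).continuousOn
        (fun z _ => (dm (-1) z).differentiableAt.differentiableWithinAt) (fun z hz => ?_)
        ⟨le_rfl, hxy⟩ ⟨hxy, le_rfl⟩ hxy
      rw [interior_Icc] at hz
      rw [(dm (-1) z).deriv]
      have := (le_abs_self _).trans (hf z x)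
      rw [abs_of_neg (by linarith [hz.2])] at this
      linarith
    have h2 : F y - f x * (y - x) - 1 * (y - x) ^ 2 / 8 ≤
        F x - f x * (x - x) - 1 * (x - x) ^ 2 / 8 := by
      refine monotoneOn_of_deriv_nonneg (convex_Icc y x) (cmp 1).continuousOn
        (fun z _ => (dm 1 z).differentiableAt.differentiableWithinAt) (fun z hz => ?_)
        ⟨le_rfl, hxy⟩ ⟨hxy, le_rfl⟩ hxy
      rw [interior_Icc] at hz
      rw [(dm 1 z).deriv]
      have := (neg_abs_le _).trans' (neg_le_neg (hf z x))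
      rw [abs_of_neg (by linarith [hz.2])] at this
      linarith
    rw [abs_le]
    constructor <;> nlinarith

/-- linear estimates for the triangles -/
theorem tri_lin {Δ δ p r : ℝ} (hΔ : 0 ≤ Δ) (hp : |p| ≤ Δ / 4) (hr : |r| ≤ |δ| / 4)
    (h : |p + Δ - δ| ≤ |Δ - (p - r)| / 4) : 0 ≤ δ ∧ δ ≤ 2 * Δ ∧ 0 ≤ δ - (p - r) := by
  rw [abs_le] at hp h
  rcases le_total 0 δ with h1 | h1
  · rw [abs_of_nonneg h1, abs_le] at hr
    rcases abs_cases (Δ - (p - r)) with ⟨e, -⟩ | ⟨e, -⟩ <;> rw [e] at h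
    · refine ⟨h1, ?_, ?_⟩ <;> linarith
    · refine ⟨h1, ?_, ?_⟩ <;> linarith
  · rw [abs_of_nonpos h1, abs_le] at hr
    rcases abs_cases (Δ - (p - r)) with ⟨e, -⟩ | ⟨e, -⟩ <;> rw [e] at h
    · refine ⟨?_, ?_, ?_⟩ <;> linarith
    · refine ⟨?_, ?_, ?_⟩ <;> linarith

/-- **Area argument.** Let `f < g` on `(0, R]` be Lipschitz with constant `1/4`, `f 0 = g 0 = 0`.
Then there is a square with the vertices `D = (d, f d)`, `A = (a, f a)` on the lower graph, `d < a`,
the third vertex above `A` on the upper graph and the fourth vertex above `D` strictly above the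
upper graph. -/
theorem exists_plus {f g : ℝ → ℝ} (hf : ∀ x y, |f x - f y| ≤ |x - y| / 4)
    (hg : ∀ x y, |g x - g y| ≤ |x - y| / 4) (f0 : f 0 = 0) (g0 : g 0 = 0) {R : ℝ} (hR : 0 < R)
    (hfg : ∀ x, 0 < x → x ≤ R → f x < g x) :
    ∃ a d, 0 < d ∧ d < a ∧ a ≤ R ∧ g (a + f d - f a) = f a + (a - d) ∧
      g (d + f d - f a) < f d + (a - d) := by
  by_contra hcon
  push Not at hcon
  have cf : Continuous f := by
    rw [Metric.continuous_iff]
    intro b ε hε
    refine ⟨ε, hε, fun a ha => ?_⟩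
    rw [Real.dist_eq] at ha ⊢
    have := hf a b
    have := abs_nonneg (a - b)
    linarith
  have cg : Continuous g := by
    rw [Metric.continuous_iff]
    intro b ε hε
    refine ⟨ε, hε, fun a ha => ?_⟩
    rw [Real.dist_eq] at ha ⊢
    have := hg a b
    have := abs_nonneg (a - b)
    linarith
  -- the triangles
  have exd : ∀ a, ∃ d, 0 ≤ a → a ≤ R → 0 ≤ d ∧ d ≤ a ∧ g (a + f d - f a) = f a + (a - d) ∧
      (0 < a → 0 < d ∧ d < a) := by
    intro a
    by_cases ha : 0 ≤ a ∧ a ≤ R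
    · obtain ⟨ha, ha'⟩ := ha
      have hfa : f a ≤ g a := by
        rcases eq_or_lt_of_le ha with h | h
        · rw [← h, f0, g0]
        · exact (hfg a h ha').le
      have b1 : |f a| ≤ a / 4 := by
        have := hf a 0
        rwa [f0, sub_zero, sub_zero, abs_of_nonneg ha] at this
      have b2 : |g (a - f a)| ≤ (a + a / 4) / 4 := by
        have := hg (a - f a) 0
        rw [g0, sub_zero, sub_zero] at this
        refine this.trans ?_
        have h3 := abs_sub a (f a)
        rw [abs_of_nonneg ha] at h3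
        linarith
      have hc : ContinuousOn (fun d => f a + (a - d) - g (a + f d - f a)) (Icc 0 a) := by
        fun_prop
      have v0 : 0 ≤ f a + (a - 0) - g (a + f 0 - f a) := by
        rw [f0, add_zero]
        rw [abs_le] at b1 b2
        linarith [b1.1, b2.2]
      have va : f a + (a - a) - g (a + f a - f a) ≤ 0 := by
        rw [add_sub_cancel_right]; linarith
      obtain ⟨d, hd, he⟩ := intermediate_value_Icc' ha hc
        (show (0:ℝ) ∈ Icc _ _ from ⟨va, v0⟩)
      simp only at he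
      refine ⟨d, fun _ _ => ⟨hd.1, hd.2, by linarith, fun hpos => ⟨?_, ?_⟩⟩⟩
      · rcases eq_or_lt_of_le hd.1 with h | h
        · exfalso
          rw [← h, f0, add_zero] at he
          rw [abs_le] at b1 b2
          linarith [b1.1, b2.2]
        · exact h
      · rcases eq_or_lt_of_le hd.2 with h | h
        · exfalso
          rw [h, add_sub_cancel_right] at he
          linarith [hfg a hpos ha']
        · exact h
    · exact ⟨0, fun h1 h2 => absurd ⟨h1, h2⟩ ha⟩
  choose d hd using exd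
  have hE : ∀ a, 0 ≤ a → a ≤ R → f (d a) + (a - d a) ≤ g (d a + f (d a) - f a) := by
    intro a h1 h2
    obtain ⟨d1, d2, d3, d4⟩ := hd a h1 h2
    rcases eq_or_lt_of_le h1 with h | h
    · have e : d a = 0 := by rw [← h] at d2 ⊢; rw [← h] at d1; linarith
      rw [e, ← h, f0]
      simp [g0]
    · exact hcon a (d a) (d4 h).1 (d4 h).2 h2 d3
  obtain ⟨F, hF⟩ := exPrim hf
  obtain ⟨G, hG⟩ := exPrim hg
  set J : ℝ → ℝ := fun a => -(F a - F (d a)) + (G (a - (f a - f (d a))) -
    G (d a - (f a - f (d a)))) - ((a - d a) ^ 2 - (f a - f (d a)) ^ 2) / 2 with hJ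
  have step : ∀ x y, 0 ≤ x → x ≤ y → y ≤ R → J y - J x ≤ 20 * (y - x) ^ 2 := by
    intro x y h0 hxy hy
    obtain ⟨x1, x2, x3, -⟩ := hd x h0 (hxy.trans hy)
    obtain ⟨y1, y2, y3, -⟩ := hd y (h0.trans hxy) hy
    have ex := hE x h0 (hxy.trans hy)
    have k1 : |f y - f x| ≤ (y - x) / 4 := by
      have := hf y x
      rwa [abs_of_nonneg (sub_nonneg.2 hxy)] at this
    have k2 := hf (d y) (d x)
    have k3 : |(f y - f x) + (y - x) - (d y - d x)| ≤
        |(y - x) - ((f y - f x) - (f (d y) - f (d x)))| / 4 := by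
      have := hg (y + f (d y) - f y) (x + f (d x) - f x)
      rw [x3, y3] at this
      convert this using 2
      · ring
      · congr 1; ring
    obtain ⟨m1, m2, m3⟩ := tri_lin (sub_nonneg.2 hxy) k1 k2 k3
    have e1 := (abs_le.1 (hF x y)).1
    have e2 := (abs_le.1 (hF (d x) (d y))).2
    have e3 := (abs_le.1 (hG (x - (f x - f (d x))) (y - (f y - f (d y))))).2
    have e4 := (abs_le.1 (hG (d x - (f x - f (d x))) (d y - (f y - f (d y))))).1
    have g1 : g (x - (f x - f (d x))) = f x + (x - d x) := by rw [← x3]; congr 1; ring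
    have g2 : f (d x) + (x - d x) ≤ g (d x - (f x - f (d x))) := by
      rw [show d x - (f x - f (d x)) = d x + f (d x) - f x by ring]; exact ex
    rw [g1] at e3
    have m4 := mul_le_mul_of_nonneg_right g2 m3
    obtain ⟨Δ, hΔ⟩ : ∃ Δ, Δ = y - x := ⟨_, rfl⟩
    obtain ⟨δ, hδ⟩ : ∃ δ, δ = d y - d x := ⟨_, rfl⟩
    obtain ⟨p, hp⟩ : ∃ p, p = f y - f x := ⟨_, rfl⟩
    obtain ⟨r, hr⟩ : ∃ r, r = f (d y) - f (d x) := ⟨_, rfl⟩
    rw [← hΔ, ← hp] at k1
    rw [← hr, ← hδ] at k2
    rw [← hδ] at m1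
    rw [← hδ, ← hΔ] at m2
    rw [abs_of_nonneg m1] at k2
    have yx : y = x + Δ := by linarith
    have dyx : d y = d x + δ := by linarith
    have fyx : f y = f x + p := by linarith
    have fdyx : f (d y) = f (d x) + r := by linarith
    have hΔ0 : 0 ≤ Δ := by linarith
    have kp := abs_le.1 k1
    have kr := abs_le.1 k2
    -- squares
    have s1 : δ ^ 2 ≤ (3 * Δ) ^ 2 := sq_le_sq' (by linarith) (by linarith)
    have s2 : (Δ - (p - r)) ^ 2 ≤ (3 * Δ) ^ 2 :=
      sq_le_sq' (by linarith [kp.2, kr.1]) (by linarith [kp.1, kr.2])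
    have s3 : (δ - (p - r)) ^ 2 ≤ (3 * Δ) ^ 2 :=
      sq_le_sq' (by linarith [kp.2, kr.1]) (by linarith [kp.1, kr.2])
    have s4 : (p - r) ^ 2 ≤ Δ ^ 2 :=
      sq_le_sq' (by linarith [kp.1, kr.2]) (by linarith [kp.2, kr.1])
    have s5 : 0 ≤ Δ ^ 2 := sq_nonneg _
    have e3' : G (y - (f y - f (d y))) - G (x - (f x - f (d x))) ≤
        (f x + (x - d x)) * (Δ - (p - r)) + (Δ - (p - r)) ^ 2 / 8 := by
      have : y - (f y - f (d y)) - (x - (f x - f (d x))) = Δ - (p - r) := by
        rw [hΔ, hp, hr]; ring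
      rw [this] at e3
      linarith
    have e4' : g (d x - (f x - f (d x))) * (δ - (p - r)) - (δ - (p - r)) ^ 2 / 8 ≤
        G (d y - (f y - f (d y))) - G (d x - (f x - f (d x))) := by
      have : d y - (f y - f (d y)) - (d x - (f x - f (d x))) = δ - (p - r) := by
        rw [hδ, hp, hr]; ring
      rw [this] at e4
      linarith
    have e1' : f x * Δ - Δ ^ 2 / 8 ≤ F y - F x := by rw [hΔ]; linarith
    have e2' : F (d y) - F (d x) ≤ f (d x) * δ + δ ^ 2 / 8 := by rw [hδ]; linarith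
    have m4' : (f (d x) + (x - d x)) * (δ - (p - r)) ≤
        g (d x - (f x - f (d x))) * (δ - (p - r)) := by
      rw [hδ, hp, hr]; exact m4
    have hquad : ((y - d y) ^ 2 - (f y - f (d y)) ^ 2) / 2 -
        ((x - d x) ^ 2 - (f x - f (d x)) ^ 2) / 2 =
        (x - d x) * (Δ - δ) - (f x - f (d x)) * (p - r) + ((Δ - δ) ^ 2 - (p - r) ^ 2) / 2 := by
      rw [fdyx, fyx, dyx]
      rw [show x + Δ = y by linarith] at yx
      have yx' : y = x + Δ := by linarith
      generalize d x = dx at *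
      linear_combination ((y - (dx + δ)) + (x + Δ - (dx + δ))) / 2 * yx'
    have hfin : J y - J x = -(F y - F x) + (F (d y) - F (d x)) +
        (G (y - (f y - f (d y))) - G (x - (f x - f (d x)))) -
        (G (d y - (f y - f (d y))) - G (d x - (f x - f (d x)))) -
        (((y - d y) ^ 2 - (f y - f (d y)) ^ 2) / 2 -
          ((x - d x) ^ 2 - (f x - f (d x)) ^ 2) / 2) := by
      rw [hJ]; ring
    rw [hfin, hquad, ← hΔ]
    have hsq : 0 ≤ (Δ - δ) ^ 2 := sq_nonneg _
    have q0 : (3 * Δ) ^ 2 = 9 * Δ ^ 2 := by ring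
    rw [q0] at s1 s2 s3
    have key : -(f x * Δ) + f (d x) * δ + (f x + (x - d x)) * (Δ - (p - r)) -
        (f (d x) + (x - d x)) * (δ - (p - r)) - (x - d x) * (Δ - δ) +
        (f x - f (d x)) * (p - r) = 0 := by ring
    linarith
  have hJ0 : J 0 = 0 := by
    obtain ⟨d1, d2, -, -⟩ := hd 0 le_rfl hR.le
    have e : d 0 = 0 := le_antisymm d2 d1
    rw [hJ]
    simp only [e, f0]
    simp
  have hle := le_of_sq hR.le (by norm_num) step
  rw [hJ0] at hle
  obtain ⟨-, -, r3, r4⟩ := hd R hR.le le_rfl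
  obtain ⟨r4, r5⟩ := r4 hR
  have e1 := (abs_le.1 (hF R (d R))).1
  have e2 := (abs_le.1 (hG (R - (f R - f (d R))) (d R - (f R - f (d R))))).2
  have g1 : g (R - (f R - f (d R))) = f R + (R - d R) := by rw [← r3]; congr 1; ring
  rw [g1, show d R - (f R - f (d R)) - (R - (f R - f (d R))) = -(R - d R) by ring] at e2
  have e3 : 0 < (R - d R) ^ 2 := by
    have : 0 < R - d R := by linarith
    positivity
  have hJR : J R = -(F R - F (d R)) + (G (R - (f R - f (d R))) -
    G (d R - (f R - f (d R)))) - ((R - d R) ^ 2 - (f R - f (d R)) ^ 2) / 2 := rfl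
  have e4 : 0 ≤ (f R - f (d R)) ^ 2 := sq_nonneg _
  have e5 : -(f R * (R - d R)) + (f R + (R - d R)) * (R - d R) = (R - d R) ^ 2 := by ring
  have e6 : (d R - R) ^ 2 = (R - d R) ^ 2 := by ring
  have e7 : (-(R - d R)) ^ 2 = (R - d R) ^ 2 := by ring
  have e8 := (abs_le.1 (hF R (d R))).2
  rw [e6] at e1 e8
  rw [e7] at e2
  linarith

end Pool.Agent.T2h7.Csp
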