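import Pool.Agent.T2h7.Csp.CorDefs
import Pool.Agent.H763R2.An.A

/-! Curves of finite total curvature have one-sided cones of arbitrarily small slope. -/

set_option autoImplicit false
open Set Complex Topology
open scoped ComplexConjugate

namespace Pool.Agent.T2h7.Csp

open Pool.Agent.H763R2.An (Inj)
open InnerProductGeometry (angle angle_le_angle_add_angle)

variable {c : ℝ → ℂ} {t κ L : ℝ}

/-- a small angle gives a narrow cone -/
theorem cone_of_angle {κ : ℝ} (hκ : 0 < κ) {V p : ℂ} (h : angle V p ≤ Real.arctan κ) :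
    |(conj V * p).im| ≤ κ * (conj V * p).re := by
  have h1 : (conj V * p).re = Real.cos (angle V p) * (‖V‖ * ‖p‖) := by
    rw [InnerProductGeometry.cos_angle_mul_norm_mul_norm, Complex.inner]
    simp only [mul_re, conj_re, conj_im]
    ring
  have hc : 0 < Real.cos (Real.arctan κ) := Real.cos_arctan_pos κ
  have h2 : Real.cos (Real.arctan κ) ≤ Real.cos (angle V p) := by
    apply Real.cos_le_cos_of_nonneg_of_le_pi (InnerProductGeometry.angle_nonneg V p)
    · have := Real.arctan_lt_pi_div_two κ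
      have := Real.pi_pos
      linarith
    · exact h
  have hN : 0 ≤ ‖V‖ * ‖p‖ := by positivity
  have h3 : 0 ≤ (conj V * p).re := by
    rw [h1]; exact mul_nonneg (hc.le.trans h2) hN
  have h4 : (conj V * p).re ^ 2 + (conj V * p).im ^ 2 = (‖V‖ * ‖p‖) ^ 2 := by
    have := Complex.sq_norm (conj V * p)
    rw [norm_mul, norm_conj, normSq_apply] at this
    linarith
  have h5 : (1 + κ ^ 2) * Real.cos (Real.arctan κ) ^ 2 = 1 := by
    rw [Real.cos_sq_arctan]
    field_simp
  have h6 : (‖V‖ * ‖p‖) ^ 2 ≤ (1 + κ ^ 2) * (conj V * p).re ^ 2 := by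
    rw [h1, mul_pow (Real.cos _)]
    have : Real.cos (Real.arctan κ) ^ 2 ≤ Real.cos (angle V p) ^ 2 :=
      pow_le_pow_left₀ hc.le h2 2
    calc (‖V‖ * ‖p‖) ^ 2 = ((1 + κ ^ 2) * Real.cos (Real.arctan κ) ^ 2) * (‖V‖ * ‖p‖) ^ 2 := by
          rw [h5, one_mul]
      _ ≤ ((1 + κ ^ 2) * Real.cos (angle V p) ^ 2) * (‖V‖ * ‖p‖) ^ 2 := by
          gcongr
      _ = (1 + κ ^ 2) * (Real.cos (angle V p) ^ 2 * (‖V‖ * ‖p‖) ^ 2) := by ring
  apply abs_le_of_sq_le_sq _ (mul_nonneg hκ.le h3)
  nlinarith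

/-- a curve of finite total curvature: just after `t` there is a chord which makes small angles with
all chords between `t` and it -/
theorem FTC.right (h : FTC c) (t : ℝ) {ε δ : ℝ} (hε : 0 < ε) (hδ : 0 < δ) (hδ1 : δ ≤ 1) :
    ∃ y0 y1, t < y0 ∧ y0 < y1 ∧ y1 < t + δ ∧ ∀ x y, t < x → x < y → y < y0 →
      angle (c y1 - c y0) (c y - c x) ≤ ε := by
  by_contra hcon
  push Not at hcon
  obtain ⟨K, hK⟩ := h
  have key : ∀ N : ℕ, ∃ (n : ℕ) (s : ℕ → ℝ), (∀ i ≤ n, s i < s (i + 1)) ∧ t < s 0 ∧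
      s (n + 1) < t + δ ∧ N * ε ≤ ∑ i ∈ Finset.range n, angle
        (c (s (i + 1)) - c (s i)) (c (s (i + 2)) - c (s (i + 1))) := by
    intro N
    induction N with
    | zero =>
      refine ⟨0, fun i => t + (i + 1 : ℝ) * (δ / 4), fun i hi => ?_, ?_, ?_, ?_⟩
      · push_cast; nlinarith
      · push_cast; nlinarith
      · push_cast; nlinarith
      · simp
    | succ N ih =>
      obtain ⟨n, s, h1, h2, h3, h4⟩ := ih
      obtain ⟨x, y, x1, x2, x3, x4⟩ := hcon (s 0) (s 1) h2 (h1 0 (Nat.zero_le _)) (by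
        have : ∀ m, 1 ≤ m → m ≤ n + 1 → s 1 ≤ s m := by
          intro m hm
          induction m, hm using Nat.le_induction with
          | base => exact fun _ => le_rfl
          | succ m hm ih => exact fun h => (ih (by omega)).trans (h1 m (by omega)).le
        exact (this (n + 1) (by omega) le_rfl).trans_lt h3)
      obtain ⟨s', hs'⟩ : ∃ s' : ℕ → ℝ, s' = fun i => match i with
        | 0 => x
        | 1 => y
        | (j + 2) => s j := ⟨_, rfl⟩
      have e0 : s' 0 = x := by rw [hs']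
      have e1 : s' 1 = y := by rw [hs']
      have e2 : ∀ j, s' (j + 2) = s j := fun j => by rw [hs']
      refine ⟨n + 2, s', fun i hi => ?_, by rw [e0]; exact x1, ?_, ?_⟩
      · rcases i with _ | _ | i
        · rw [e0, zero_add, e1]; exact x2
        · rw [zero_add, e1, show (1 + 1 : ℕ) = 0 + 2 from rfl, e2]; exact x3
        · rw [show i + 1 + 1 + 1 = (i + 1) + 2 from rfl, show i + 1 + 1 = i + 2 from rfl, e2, e2]
          exact h1 i (by omega)
      · rw [show n + 2 + 1 = (n + 1) + 2 from rfl, e2]; exact h3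
      · rw [Finset.sum_range_succ', Finset.sum_range_succ']
        have q1 : ∀ i : ℕ, s' (i + 1 + 1 + 2) = s (i + 2) := fun i => e2 (i + 2)
        have q2 : ∀ i : ℕ, s' (i + 1 + 1 + 1) = s (i + 1) := fun i => e2 (i + 1)
        have q3 : ∀ i : ℕ, s' (i + 1 + 1) = s i := fun i => e2 i
        have q6 : s' (0 + 1) = y := e1
        simp only [q1, q2, q3, q6, e0]
        have tri := angle_le_angle_add_angle (c y - c x) (c (s 0) - c y) (c (s 1) - c (s 0))
        rw [InnerProductGeometry.angle_comm] at x4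
        push_cast
        linarith
  obtain ⟨N, hN⟩ := exists_nat_gt (K / ε)
  obtain ⟨n, s, h1, h2, h3, h4⟩ := key N
  have := hK n s h1 (by linarith)
  rw [div_lt_iff₀ hε] at hN
  linarith

/-- the reversed curve has finite total curvature, too -/
theorem FTC.rev (h : FTC c) : FTC (fun s => c (-s)) := by
  obtain ⟨K, hK⟩ := h
  refine ⟨K, fun n s h1 h2 => ?_⟩
  obtain ⟨r, hr⟩ : ∃ r : ℕ → ℝ, r = fun i => -s (n + 1 - i) := ⟨_, rfl⟩
  have h3 := hK n r (fun i hi => by
    rw [hr]
    simp only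
    have := h1 (n - i) (by omega)
    rw [show n - i + 1 = n + 1 - i by omega] at this
    rw [show n + 1 - (i + 1) = n - i by omega]
    linarith) (by
    rw [hr]
    simp only [Nat.sub_self, Nat.sub_zero]
    linarith)
  refine le_trans (le_of_eq ?_) h3
  rw [← Finset.sum_range_reflect]
  refine Finset.sum_congr rfl fun i hi => ?_
  have hi' := Finset.mem_range.1 hi
  rw [hr]
  simp only
  rw [show n + 1 - (i + 1) = n - 1 - i + 1 by omega, show n + 1 - i = n - 1 - i + 2 by omega,
    show n + 1 - (i + 2) = n - 1 - i by omega, InnerProductGeometry.angle_comm,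
    ← InnerProductGeometry.angle_neg_neg, neg_sub, neg_sub]

theorem FTC.cone_right (hc : Continuous c) (J : Inj c) (h : FTC c) (hκ : 0 < κ) (t : ℝ) :
    ∃ ρ > 0, ∃ v : ℂ, v ≠ 0 ∧ ∀ x y, t ≤ x → x < y → y < t + ρ →
      |(v * (c y - c x)).im| ≤ κ * (v * (c y - c x)).re := by
  obtain ⟨y0, y1, h1, h2, h3, h4⟩ := h.right t (Real.arctan_pos.2 hκ) one_pos le_rfl
  refine ⟨y0 - t, by linarith, conj (c y1 - c y0), ?_, fun x y hx hxy hy => ?_⟩
  · rw [map_ne_zero]
    exact fun h => J y0 y1 h2 (by linarith) (sub_eq_zero.1 h).symm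
  have h5 : ∀ x, t < x → x < y → |(conj (c y1 - c y0) * (c y - c x)).im| ≤
      κ * (conj (c y1 - c y0) * (c y - c x)).re := fun x hx hxy =>
    cone_of_angle hκ (h4 x y hx hxy (by linarith))
  rcases eq_or_lt_of_le hx with h6 | h6
  · subst h6
    have c1 : Continuous fun x => |(conj (c y1 - c y0) * (c y - c x)).im| := by fun_prop
    have c2 : Continuous fun x => κ * (conj (c y1 - c y0) * (c y - c x)).re := by fun_prop
    refine le_of_tendsto_of_tendsto ((c1.tendsto t).mono_left nhdsWithin_le_nhds)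
      ((c2.tendsto t).mono_left nhdsWithin_le_nhds) (b := 𝓝[>] t) ?_
    filter_upwards [Ioo_mem_nhdsGT hxy] with x hx
    exact h5 x hx.1 hx.2
  · exact h5 x h6 hxy

/-- **Curves of finite total curvature have one-sided cones of arbitrarily small slope.** -/
theorem FTC.oneSided (hc : Continuous c) (J : Inj c) (h : FTC c) (hκ : 0 < κ) (t : ℝ) :
    OneSided κ c t := by
  obtain ⟨ρ1, hρ1, v, hv0, hv⟩ := h.cone_right hc J hκ t
  have J' : Inj (fun s => c (-s)) := fun x y h1 h2 h =>
    J (-y) (-x) (by linarith) (by linarith) h.symm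
  obtain ⟨ρ2, hρ2, u, hu0, hu⟩ := h.rev.cone_right (by fun_prop) J' hκ (-t)
  refine ⟨min ρ1 ρ2, lt_min hρ1 hρ2, -u, v, neg_ne_zero.2 hu0, hv0, fun x y h1 h2 h3 => ?_,
    fun x y h1 h2 h3 => hv x y h1 h2 (by linarith [min_le_left ρ1 ρ2])⟩
  have := hu (-y) (-x) (by linarith) (by linarith) (by linarith [min_le_right ρ1 ρ2])
  simp only [neg_neg] at this
  rw [show -u * (c y - c x) = u * (c x - c y) by ring]
  exact this

end Pool.Agent.T2h7.Csp
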