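import Mathlib

/-! Local conditions for plane curves: locally monotone points, Lipschitz cusps, one-sided cones,
finite total curvature. -/

set_option autoImplicit false
open Set

namespace Pool.Agent.T2h7.Csp

/-- near `t` the scalar product of the curve with a fixed vector is strictly increasing -/
def LocMono (c : ℝ → ℂ) (t : ℝ) : Prop := ∃ ρ > 0, ∃ w : ℂ, ∀ x y : ℝ,
  |x - t| < ρ → |y - t| < ρ → x < y → 0 < (w * (c y - c x)).re

/-- near `t` the two branches of the curve are Lipschitz graphs, with constant `L`, over the same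
half line (a cusp, or a corner with a small interior angle) -/
def LipCusp (L : ℝ) (c : ℝ → ℂ) (t : ℝ) : Prop := ∃ ρ > 0, ∃ w : ℂ, w ≠ 0 ∧
  (∀ x y, t - ρ < x → x < y → y ≤ t → |(w * (c y - c x)).im| ≤ L * -(w * (c y - c x)).re) ∧
  (∀ x y, t ≤ x → x < y → y < t + ρ → |(w * (c y - c x)).im| ≤ L * (w * (c y - c x)).re)

/-- the chords of the arc before `t` lie in a cone of slope `κ`, and the chords of the arc after `t`
lie in a cone of slope `κ` -/
def OneSided (κ : ℝ) (c : ℝ → ℂ) (t : ℝ) : Prop := ∃ ρ > 0, ∃ u v : ℂ, u ≠ 0 ∧ v ≠ 0 ∧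
  (∀ x y, t - ρ < x → x < y → y ≤ t → |(u * (c y - c x)).im| ≤ κ * (u * (c y - c x)).re) ∧
  (∀ x y, t ≤ x → x < y → y < t + ρ → |(v * (c y - c x)).im| ≤ κ * (v * (c y - c x)).re)

/-- finite total curvature: the sums of the angles by which the inscribed polygons
`c (s 0), ..., c (s (n + 1))` turn at their inner vertices are bounded -/
def FTC (c : ℝ → ℂ) : Prop := ∃ K : ℝ, ∀ (n : ℕ) (s : ℕ → ℝ), (∀ i ≤ n, s i < s (i + 1)) →
  s (n + 1) < s 0 + 1 → ∑ i ∈ Finset.range n, InnerProductGeometry.angle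
    (c (s (i + 1)) - c (s i)) (c (s (i + 2)) - c (s (i + 1))) ≤ K

/-- the directions of the chords of the arc after `t` have a limit, and also those of the arc
before `t` (nothing is supposed about the relation of the two limits) -/
def StrongTan (c : ℝ → ℂ) (t : ℝ) : Prop := ∃ u v : ℂ, ‖u‖ = 1 ∧ ‖v‖ = 1 ∧
  ∀ ε > 0, ∃ ρ > 0, (∀ x y, t - ρ < x → x < y → y ≤ t →
      ‖(c y - c x) - (‖c y - c x‖ : ℂ) * u‖ ≤ ε * ‖c y - c x‖) ∧
    (∀ x y, t ≤ x → x < y → y < t + ρ →
      ‖(c y - c x) - (‖c y - c x‖ : ℂ) * v‖ ≤ ε * ‖c y - c x‖)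

end Pool.Agent.T2h7.Csp
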