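import Pool.Agent.T2h7.Csp.Area

/-! Positions of the third and fourth vertices of squares on the chords of a cusp. -/

set_option autoImplicit false
open Set

namespace Pool.Agent.T2h7.Csp

/-- two Lipschitz graphs through the origin, the first one below the second one -/
structure Gr (f g : ℝ → ℝ) (R : ℝ) : Prop where
  hf : ∀ x y, |f x - f y| ≤ |x - y| / 4
  hg : ∀ x y, |g x - g y| ≤ |x - y| / 4
  f0 : f 0 = 0
  g0 : g 0 = 0
  R0 : 0 < R
  fg : ∀ x, 0 < x → x ≤ R → f x < g x

/-- the closed region between the graphs -/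
def Wc (f g : ℝ → ℝ) (x y : ℝ) : Prop := 0 ≤ x ∧ f x ≤ y ∧ y ≤ g x

variable {f g : ℝ → ℝ} {R : ℝ}

theorem Gr.fa (G : Gr f g R) {x y : ℝ} (h : x ≤ y) : |f y - f x| ≤ (y - x) / 4 := by
  have := G.hf y x
  rwa [abs_of_nonneg (sub_nonneg.2 h)] at this

theorem Gr.ga (G : Gr f g R) {x y : ℝ} (h : x ≤ y) : |g y - g x| ≤ (y - x) / 4 := by
  have := G.hg y x
  rwa [abs_of_nonneg (sub_nonneg.2 h)] at this

/-- chords of the lower graph, directed to the left -/
theorem Gr.lowlow (G : Gr f g R) {a b : ℝ} (h : b < a) :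
    f a + (b - a) < f (a - (f b - f a)) ∧ f b + (b - a) < f (b - (f b - f a)) := by
  have h1 := abs_le.1 (G.fa h.le)
  have h2 := G.hf (a - (f b - f a)) a
  have h3 := G.hf (b - (f b - f a)) b
  rw [show a - (f b - f a) - a = -(f b - f a) by ring, abs_neg] at h2
  rw [show b - (f b - f a) - b = -(f b - f a) by ring, abs_neg] at h3
  have h4 : |f b - f a| ≤ (a - b) / 4 := by rw [abs_sub_comm]; exact G.fa h.le
  have h5 := abs_le.1 h2
  have h6 := abs_le.1 h3
  constructor <;> linarith [h5.1, h6.1]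

/-- chords of the upper graph, directed to the right -/
theorem Gr.upup (G : Gr f g R) {a b : ℝ} (h : a < b) :
    g (a - (g b - g a)) < g a + (b - a) ∧ g (b - (g b - g a)) < g b + (b - a) := by
  have h2 := G.hg (a - (g b - g a)) a
  have h3 := G.hg (b - (g b - g a)) b
  rw [show a - (g b - g a) - a = -(g b - g a) by ring, abs_neg] at h2
  rw [show b - (g b - g a) - b = -(g b - g a) by ring, abs_neg] at h3
  have h4 : |g b - g a| ≤ (b - a) / 4 := G.ga h.le
  have h5 := abs_le.1 h2
  have h6 := abs_le.1 h3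
  constructor <;> linarith [h5.2, h6.2]

/-- long chords from the lower to the upper graph -/
theorem Gr.lowup (G : Gr f g R) {a b : ℝ} (h0 : 0 ≤ a) (h : 2 * a ≤ b) (hb : 0 < b) :
    g (a - (g b - f a)) < f a + (b - a) := by
  have h2 := G.hg (a - (g b - f a)) a
  rw [show a - (g b - f a) - a = -(g b - f a) by ring, abs_neg] at h2
  have h3 := abs_le.1 (G.fa h0)
  have h4 := abs_le.1 (G.ga h0)
  have h5 := abs_le.1 (G.ga (h0.trans (by linarith : a ≤ b)))
  rw [G.f0] at h3
  rw [G.g0] at h4 h5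
  have h6 : |g b - f a| ≤ (b + a) / 4 := by rw [abs_le]; constructor <;> linarith
  have h7 := abs_le.1 h2
  linarith [h7.2]

/-- chords from a fixed point of the lower graph to the upper graph -/
theorem Gr.cross (G : Gr f g R) {a d : ℝ}
    (h1 : g (a + f d - f a) = f a + (a - d)) (h2 : g (d + f d - f a) < f d + (a - d)) {b : ℝ}
    (hD : Wc f g (a - (g b - f a)) (f a + (b - a))) :
    ¬ Wc f g (b - (g b - f a)) (g b + (b - a)) := by
  obtain ⟨b1, hb1⟩ : ∃ b1, b1 = a + f d - f a := ⟨_, rfl⟩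
  have e1 : g b1 = f a + (a - d) := by rw [hb1]; exact h1
  have hb : b1 ≤ b := by
    by_contra hcon
    push Not at hcon
    have k1 := abs_le.1 (G.ga hcon.le)
    have k2 := G.hf (a - (g b - f a)) d
    have k3 : |a - (g b - f a) - d| ≤ (b1 - b) / 4 := by
      rw [show a - (g b - f a) - d = g b1 - g b by rw [e1]; ring]
      exact G.ga hcon.le
    have k4 := abs_le.1 k2
    have := hD.2.1
    linarith [k4.1]
  rintro ⟨-, -, hE⟩
  have k1 := abs_le.1 (G.ga hb)
  have k2 := G.hg (b - (g b - f a)) (d + f d - f a)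
  have k3 : |b - (g b - f a) - (d + f d - f a)| ≤ (b - b1) + (b - b1) / 4 := by
    rw [show b - (g b - f a) - (d + f d - f a) = (b - b1) - (g b - g b1) by
      rw [e1, hb1]; ring]
    rw [abs_le]; constructor <;> linarith
  have k4 := abs_le.1 k2
  linarith [k4.2]

end Pool.Agent.T2h7.Csp
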