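import Pool.Agent.T2h7.Csp.Geo
import Pool.Agent.Y535.PEG.Rel

/-! The number of half turns along a family of chords, and the sign of a function near a cusp. -/

set_option autoImplicit false
open Complex Set Topology Metric

namespace Pool.Agent.T2h7.Csp

open Pool.Agent.H763R2 Pool.Agent.H763R2.An
open Pool.Agent.Y535.PEG (half_fl fl_even fl_odd)

variable {c : ℝ → ℂ} {M : ℂ → ℝ} {θ : ℝ → ℝ → ℝ} {g : ℤ}

theorem lev_aux {x y m : ℝ} (hx : 0 < m * Real.cos x ∧ 0 < m * Real.sin x)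
    (hy : 0 < m * Real.cos y ∧ 0 < m * Real.sin y)
    (hlt : ⌊x / Real.pi⌋ < ⌊y / Real.pi⌋) :
    ∃ z ∈ Icc x y, m * Real.cos z < 0 ∧ m * Real.sin z < 0 := by
  have hπ := Real.pi_pos
  have px : 0 < Real.cos x * Real.sin x := by
    rcases lt_trichotomy m 0 with h | h | h
    · exact mul_pos_of_neg_of_neg (neg_of_mul_pos_right hx.1 h.le) (neg_of_mul_pos_right hx.2 h.le)
    · rw [h, zero_mul] at hx; exact absurd hx.1 (lt_irrefl _)
    · exact mul_pos ((mul_pos_iff_of_pos_left h).1 hx.1) ((mul_pos_iff_of_pos_left h).1 hx.2)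
  have py : 0 < Real.cos y * Real.sin y := by
    rcases lt_trichotomy m 0 with h | h | h
    · exact mul_pos_of_neg_of_neg (neg_of_mul_pos_right hy.1 h.le) (neg_of_mul_pos_right hy.2 h.le)
    · rw [h, zero_mul] at hy; exact absurd hy.1 (lt_irrefl _)
    · exact mul_pos ((mul_pos_iff_of_pos_left h).1 hy.1) ((mul_pos_iff_of_pos_left h).1 hy.2)
  obtain ⟨a1, a2⟩ := half_fl px
  obtain ⟨b1, b2⟩ := half_fl py
  have hpar : ⌊x / Real.pi⌋ + 2 ≤ ⌊y / Real.pi⌋ := by
    have : Even ⌊x / Real.pi⌋ ↔ Even ⌊y / Real.pi⌋ := by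
      rcases lt_trichotomy m 0 with h | h | h
      · have h1 := fl_odd (neg_of_mul_pos_right hx.2 h.le)
        have h2 := fl_odd (neg_of_mul_pos_right hy.2 h.le)
        rw [← Int.not_even_iff_odd] at h1 h2
        tauto
      · rw [h, zero_mul] at hx; exact absurd hx.1 (lt_irrefl _)
      · have h1 := fl_even ((mul_pos_iff_of_pos_left h).1 hx.2)
        have h2 := fl_even ((mul_pos_iff_of_pos_left h).1 hy.2)
        tauto
    by_contra hcon
    push Not at hcon
    have h3 : ⌊y / Real.pi⌋ = ⌊x / Real.pi⌋ + 1 := by omega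
    rw [h3, Int.even_add_one] at this
    tauto
  have hpar' : ((⌊x / Real.pi⌋ : ℤ) : ℝ) + 2 ≤ ⌊y / Real.pi⌋ := by exact_mod_cast hpar
  set k : ℤ := ⌊x / Real.pi⌋ with hk
  refine ⟨x + Real.pi, ⟨by linarith, ?_⟩, ?_⟩
  · nlinarith
  · rw [Real.cos_add_pi, Real.sin_add_pi]
    constructor <;> linarith [hx.1, hx.2]

/-- along a family of chords for which the two vertices are never both on the wrong side the number
of half turns is the same at the two ends -/
theorem lev (A : Ang c M θ g) {m : ℝ} {S : Set (ℝ × ℝ)} (hS : IsPreconnected S) (hU : S ⊆ UU)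
    (h : ∀ p ∈ S, 0 < m * M (DD c p.1 p.2) ∨ 0 < m * M (CC c p.1 p.2)) {p q : ℝ × ℝ}
    (hp : p ∈ S) (hq : q ∈ S) (hp' : 0 < m * M (DD c p.1 p.2) ∧ 0 < m * M (CC c p.1 p.2))
    (hq' : 0 < m * M (DD c q.1 q.2) ∧ 0 < m * M (CC c q.1 q.2)) :
    ⌊θ p.1 p.2 / Real.pi⌋ = ⌊θ q.1 q.2 / Real.pi⌋ := by
  have sg : ∀ p ∈ UU, 0 < m * M (DD c p.1 p.2) ∧ 0 < m * M (CC c p.1 p.2) →
      0 < m * Real.cos (θ p.1 p.2) ∧ 0 < m * Real.sin (θ p.1 p.2) := by
    rintro p hp ⟨h1, h2⟩
    obtain ⟨ρ, hρ, e1, e2⟩ := A.ex p.1 p.2 hp.1 hp.2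
    rw [e1, show m * (ρ * Real.cos (θ p.1 p.2)) = ρ * (m * Real.cos (θ p.1 p.2)) by ring] at h1
    rw [e2, show m * (ρ * Real.sin (θ p.1 p.2)) = ρ * (m * Real.sin (θ p.1 p.2)) by ring] at h2
    exact ⟨(mul_pos_iff_of_pos_left hρ).1 h1, (mul_pos_iff_of_pos_left hρ).1 h2⟩
  have cont : ContinuousOn (fun p : ℝ × ℝ => θ p.1 p.2) S := A.cont.mono hU
  have key : ∀ p ∈ S, ∀ q ∈ S, 0 < m * M (DD c p.1 p.2) ∧ 0 < m * M (CC c p.1 p.2) →
      0 < m * M (DD c q.1 q.2) ∧ 0 < m * M (CC c q.1 q.2) →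
      ¬ ⌊θ p.1 p.2 / Real.pi⌋ < ⌊θ q.1 q.2 / Real.pi⌋ := by
    intro p hp q hq hp' hq' hlt
    obtain ⟨z, hz, z1, z2⟩ := lev_aux (sg p (hU hp) hp') (sg q (hU hq) hq') hlt
    obtain ⟨r, hr, hrz⟩ := hS.intermediate_value hp hq cont hz
    simp only at hrz
    obtain ⟨ρ, hρ, e1, e2⟩ := A.ex r.1 r.2 (hU hr).1 (hU hr).2
    rcases h r hr with h' | h'
    · rw [e1, hrz, show m * (ρ * Real.cos z) = ρ * (m * Real.cos z) by ring] at h'
      exact absurd ((mul_pos_iff_of_pos_left hρ).1 h') (not_lt.2 z1.le)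
    · rw [e2, hrz, show m * (ρ * Real.sin z) = ρ * (m * Real.sin z) by ring] at h'
      exact absurd ((mul_pos_iff_of_pos_left hρ).1 h') (not_lt.2 z2.le)
  rcases lt_trichotomy ⌊θ p.1 p.2 / Real.pi⌋ ⌊θ q.1 q.2 / Real.pi⌋ with h1 | h1 | h1
  · exact absurd h1 (key p hp q hq hp' hq')
  · exact h1
  · exact absurd h1 (key q hq p hp hq' hp')

theorem seg_sign {M : ℂ → ℝ} (hM : Continuous M) {z w : ℂ}
    (h : ∀ l ∈ Icc (0:ℝ) 1, M (z + l * (w - z)) ≠ 0) : 0 < M z * M w := by
  have := Pool.Agent.Y535.PEG.sign_pre (V := Icc (0:ℝ) 1) isPreconnected_Icc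
    (f := fun l : ℝ => M (z + l * (w - z))) (by fun_prop) h (z := 0) (w := 1) (by simp) (by simp)
  simpa using this

/-- the sign of a function outside the cusp -/
theorem out_sign {f g : ℝ → ℝ} {R : ℝ} (G : Gr f g R) (hM : Continuous M) {r : ℝ} (hr : 0 < r)
    (hz : ∀ z, ‖z‖ < r → M z = 0 → Wc f g z.re z.im) :
    ∃ m : ℝ, ∀ z, ‖z‖ < r / 8 → ¬ Wc f g z.re z.im → 0 < m * M z := by
  have nW : ∀ z : ℂ, z.re < 0 → ¬ Wc f g z.re z.im := fun z h h' => absurd h'.1 (not_le.2 h)
  have fb : ∀ x : ℝ, 0 ≤ x → |f x| ≤ x / 4 := fun x hx => by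
    have := G.fa hx
    rwa [G.f0, sub_zero, sub_zero] at this
  have gb : ∀ x : ℝ, 0 ≤ x → |g x| ≤ x / 4 := fun x hx => by
    have := G.ga hx
    rwa [G.g0, sub_zero, sub_zero] at this
  -- the base points
  obtain ⟨zp, hzp⟩ : ∃ zp : ℂ, zp = ⟨0, r / 2⟩ := ⟨_, rfl⟩
  obtain ⟨zm, hzm⟩ : ∃ zm : ℂ, zm = ⟨0, -(r / 2)⟩ := ⟨_, rfl⟩
  obtain ⟨z0, hz0⟩ : ∃ z0 : ℂ, z0 = ⟨-(r / 2), 0⟩ := ⟨_, rfl⟩
  have nn : ∀ a b : ℝ, |a| + |b| < r → ‖(⟨a, b⟩ : ℂ)‖ < r := fun a b h =>
    lt_of_le_of_lt (Complex.norm_le_abs_re_add_abs_im _) h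
  have l1 : 0 < M zp * M z0 := by
    refine seg_sign hM fun l hl h0 => ?_
    have e : zp + l * (z0 - zp) = ⟨-(l * (r / 2)), (1 - l) * (r / 2)⟩ := by
      rw [hzp, hz0]; apply Complex.ext <;> simp; ring
    have := hz _ (by
      rw [e]; apply nn
      rw [abs_neg, abs_of_nonneg (mul_nonneg hl.1 (by linarith)),
        abs_of_nonneg (mul_nonneg (by linarith [hl.2]) (by linarith))]
      nlinarith) h0
    rw [e] at this
    have h1 : 0 ≤ -(l * (r / 2)) := this.1
    have h2 : l = 0 := by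
      have := hl.1
      by_contra hne
      have : 0 < l := lt_of_le_of_ne hl.1 (Ne.symm hne)
      have := mul_pos this (by linarith : 0 < r / 2)
      linarith
    rw [h2] at this
    have h3 := this.2.2
    simp only at h3
    rw [zero_mul, neg_zero, G.g0] at h3
    linarith
  have l2 : 0 < M zm * M z0 := by
    refine seg_sign hM fun l hl h0 => ?_
    have e : zm + l * (z0 - zm) = ⟨-(l * (r / 2)), -((1 - l) * (r / 2))⟩ := by
      rw [hzm, hz0]; apply Complex.ext <;> simp; ring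
    have := hz _ (by
      rw [e]; apply nn
      rw [abs_neg, abs_neg, abs_of_nonneg (mul_nonneg hl.1 (by linarith)),
        abs_of_nonneg (mul_nonneg (by linarith [hl.2]) (by linarith))]
      nlinarith) h0
    rw [e] at this
    have h1 : 0 ≤ -(l * (r / 2)) := this.1
    have h2 : l = 0 := by
      have := hl.1
      by_contra hne
      have : 0 < l := lt_of_le_of_ne hl.1 (Ne.symm hne)
      have := mul_pos this (by linarith : 0 < r / 2)
      linarith
    rw [h2] at this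
    have h3 := this.2.1
    simp only at h3
    rw [zero_mul, neg_zero, G.f0] at h3
    linarith
  refine ⟨M z0, fun z hzr hW => ?_⟩
  have hre := (Complex.abs_re_le_norm z).trans_lt hzr
  have him := (Complex.abs_im_le_norm z).trans_lt hzr
  rw [abs_lt] at hre him
  rw [mul_comm]
  have comb : ∀ w : ℂ, 0 < M z * M w → 0 < M w * M z0 → 0 < M z * M z0 := by
    intro w h1 h2
    rcases lt_trichotomy (M w) 0 with h | h | h
    · have a1 := neg_of_mul_pos_left h1 h.le
      have a2 := neg_of_mul_pos_right h2 h.le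
      exact mul_pos_of_neg_of_neg a1 a2
    · rw [h, mul_zero] at h1; exact absurd h1 (lt_irrefl _)
    · exact mul_pos ((mul_pos_iff_of_pos_right h).1 h1) ((mul_pos_iff_of_pos_left h).1 h2)
  have ez : z = ⟨z.re, z.im⟩ := rfl
  rcases lt_or_ge z.re 0 with hneg | hpos
  · -- directly to the base point
    refine seg_sign hM fun l hl h0 => ?_
    have e : z + l * (z0 - z) = ⟨(1 - l) * z.re - l * (r / 2), (1 - l) * z.im⟩ := by
      rw [hz0]; apply Complex.ext <;> simp <;> ring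
    have hlt : (1 - l) * z.re - l * (r / 2) < 0 := by
      rcases eq_or_lt_of_le hl.1 with h | h
      · rw [← h]; linarith
      · have := mul_pos h (by linarith : 0 < r / 2)
        have := mul_nonpos_of_nonneg_of_nonpos (by linarith [hl.2] : 0 ≤ 1 - l) hneg.le
        linarith
    have := hz _ (by
      rw [e]; apply nn
      have a1 : |(1 - l) * z.im| ≤ |z.im| := by
        rw [abs_mul, abs_of_nonneg (by linarith [hl.2] : 0 ≤ 1 - l)]
        exact mul_le_of_le_one_left (abs_nonneg _) (by linarith [hl.1])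
      have a2 : |z.im| < r / 8 := abs_lt.2 him
      rw [abs_of_neg hlt]
      nlinarith [hl.1, hl.2]) h0
    rw [e] at this
    exact absurd this.1 (not_le.2 hlt)
  · -- above or below
    have hab : g z.re < z.im ∨ z.im < f z.re := by
      by_contra hcon
      push Not at hcon
      exact hW ⟨hpos, hcon.2, hcon.1⟩
    rcases hab with ha | hb
    · refine comb zp (seg_sign hM fun l hl h0 => ?_) l1
      have e : z + l * (zp - z) = ⟨(1 - l) * z.re, (1 - l) * z.im + l * (r / 2)⟩ := by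
        rw [hzp]; apply Complex.ext <;> simp <;> ring
      have h1l : 0 ≤ 1 - l := by linarith [hl.2]
      have := hz _ (by
        rw [e]; apply nn
        have a1 : |(1 - l) * z.im| ≤ |z.im| := by
          rw [abs_mul, abs_of_nonneg h1l]
          exact mul_le_of_le_one_left (abs_nonneg _) (by linarith [hl.1])
        have a2 : |z.im| < r / 8 := abs_lt.2 him
        have a3 : |l * (r / 2)| ≤ r / 2 := by
          rw [abs_of_nonneg (mul_nonneg hl.1 (by linarith))]
          nlinarith [hl.2]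
        have a4 := abs_add_le ((1 - l) * z.im) (l * (r / 2))
        have a5 : |(1 - l) * z.re| ≤ r / 8 := by
          rw [abs_of_nonneg (mul_nonneg h1l hpos)]
          nlinarith [hl.1, hl.2]
        linarith) h0
      rw [e] at this
      have h3 : (1 - l) * z.im + l * (r / 2) ≤ g ((1 - l) * z.re) := this.2.2
      have h4 := abs_le.1 (G.ga (x := (1 - l) * z.re) (y := z.re) (by nlinarith [hl.1]))
      have h5 : z.re - (1 - l) * z.re = l * z.re := by ring
      rw [h5] at h4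
      nlinarith [hl.1, hl.2, mul_nonneg hl.1 hpos]
    · refine comb zm (seg_sign hM fun l hl h0 => ?_) l2
      have e : z + l * (zm - z) = ⟨(1 - l) * z.re, (1 - l) * z.im - l * (r / 2)⟩ := by
        rw [hzm]; apply Complex.ext <;> simp <;> ring
      have h1l : 0 ≤ 1 - l := by linarith [hl.2]
      have := hz _ (by
        rw [e]; apply nn
        have a1 : |(1 - l) * z.im| ≤ |z.im| := by
          rw [abs_mul, abs_of_nonneg h1l]
          exact mul_le_of_le_one_left (abs_nonneg _) (by linarith [hl.1])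
        have a2 : |z.im| < r / 8 := abs_lt.2 him
        have a3 : |l * (r / 2)| ≤ r / 2 := by
          rw [abs_of_nonneg (mul_nonneg hl.1 (by linarith))]
          nlinarith [hl.2]
        have a4 := abs_sub ((1 - l) * z.im) (l * (r / 2))
        have a5 : |(1 - l) * z.re| ≤ r / 8 := by
          rw [abs_of_nonneg (mul_nonneg h1l hpos)]
          nlinarith [hl.1, hl.2]
        linarith) h0
      rw [e] at this
      have h3 : f ((1 - l) * z.re) ≤ (1 - l) * z.im - l * (r / 2) := this.2.1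
      have h4 := abs_le.1 (G.fa (x := (1 - l) * z.re) (y := z.re) (by nlinarith [hl.1]))
      have h5 : z.re - (1 - l) * z.re = l * z.re := by ring
      rw [h5] at h4
      nlinarith [hl.1, hl.2, mul_nonneg hl.1 hpos]

end Pool.Agent.T2h7.Csp
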