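import Pool.Agent.T2h7.Csp.Lev
import Pool.Agent.Y535.PEG.Sim

/-! The number of half turns does not change across a cusp in normal position. -/

set_option autoImplicit false
open Complex Set Topology Metric

namespace Pool.Agent.T2h7.Csp

open Pool.Agent.H763R2 Pool.Agent.H763R2.An
open Pool.Agent.W675.Peg (DD_eq CC_eq)

variable {c : ℝ → ℂ} {M : ℂ → ℝ} {θ : ℝ → ℝ → ℝ} {g : ℤ} {ρ : ℝ}

/-- a cusp at the origin, pointing to the left -/
structure Cz (c : ℝ → ℂ) (ρ : ℝ) : Prop where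
  c0 : c 0 = 0
  ρ0 : 0 < ρ
  ρ1 : ρ ≤ 1 / 4
  lo : ∀ x y, -ρ ≤ x → x < y → y ≤ 0 → 4 * |(c y - c x).im| ≤ -(c y - c x).re
  up : ∀ x y, 0 ≤ x → x < y → y ≤ ρ → 4 * |(c y - c x).im| ≤ (c y - c x).re

/-- a cusp at the origin, pointing to the left, the incoming branch being the lower one -/
structure Cn (c : ℝ → ℂ) (ρ : ℝ) : Prop extends Cz c ρ where
  low : ∀ x y, -ρ ≤ x → x < 0 → 0 < y → y ≤ ρ → (c x).re = (c y).re → (c x).im < (c y).im

theorem Cz.anti (C : Cz c ρ) (J : Inj c) {x y : ℝ} (hx : -ρ ≤ x) (hxy : x < y) (hy : y ≤ 0) :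
    (c y).re < (c x).re := by
  have h := C.lo x y hx hxy hy
  have h0 := abs_nonneg (c y - c x).im
  have h1 : (c y - c x).re ≤ 0 := by linarith
  rcases eq_or_lt_of_le h1 with h2 | h2
  · exfalso
    rw [h2] at h
    have h3 : (c y - c x).im = 0 := abs_eq_zero.1 (by linarith)
    exact J x y hxy (by linarith [C.ρ1]) (sub_eq_zero.1 (Complex.ext h2 h3)).symm
  · rw [sub_re] at h2; linarith

theorem Cz.mono (C : Cz c ρ) (J : Inj c) {x y : ℝ} (hx : 0 ≤ x) (hxy : x < y) (hy : y ≤ ρ) :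
    (c x).re < (c y).re := by
  have h := C.up x y hx hxy hy
  have h0 := abs_nonneg (c y - c x).im
  have h1 : 0 ≤ (c y - c x).re := by linarith
  rcases eq_or_lt_of_le h1 with h2 | h2
  · exfalso
    rw [← h2] at h
    have h3 : (c y - c x).im = 0 := abs_eq_zero.1 (by linarith)
    exact J x y hxy (by linarith [C.ρ1]) (sub_eq_zero.1 (Complex.ext h2.symm h3)).symm
  · rw [sub_re] at h2; linarith

theorem clamp_lip (R u v : ℝ) : |max 0 (min R u) - max 0 (min R v)| ≤ |u - v| := by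
  refine (abs_max_sub_max_le_max 0 (min R u) 0 (min R v)).trans ?_
  rw [sub_self, abs_zero]
  refine max_le (abs_nonneg _) ?_
  refine (abs_min_sub_min_le_max R u R v).trans ?_
  rw [sub_self, abs_zero]
  exact max_le (abs_nonneg _) le_rfl

theorem clamp_id {R u : ℝ} (h0 : 0 ≤ u) (h1 : u ≤ R) : max 0 (min R u) = u := by
  rw [min_eq_right h1, max_eq_right h0]

/-- the two branches are graphs -/
theorem Cz.graphs (C : Cz c ρ) (L : Loop c) (J : Inj c) : ∃ (f g : ℝ → ℝ) (R : ℝ),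
    ((∀ x y, |f x - f y| ≤ |x - y| / 4) ∧ (∀ x y, |g x - g y| ≤ |x - y| / 4) ∧ f 0 = 0 ∧
      g 0 = 0 ∧ 0 < R ∧ R = min (c (-ρ)).re (c ρ).re) ∧
    (∀ u, 0 ≤ u → u < R → ∃ x, -ρ < x ∧ x ≤ 0 ∧ c x = ⟨u, f u⟩) ∧
    (∀ u, 0 ≤ u → u < R → ∃ x, 0 ≤ x ∧ x < ρ ∧ c x = ⟨u, g u⟩) ∧
    (∀ x, -ρ ≤ x → x ≤ 0 → (c x).re ≤ R → c x = ⟨(c x).re, f (c x).re⟩) ∧
    (∀ x, 0 ≤ x → x ≤ ρ → (c x).re ≤ R → c x = ⟨(c x).re, g (c x).re⟩) := by
  have cc := L.cont
  have ρ0 := C.ρ0
  have ra := C.anti J le_rfl (show -ρ < 0 by linarith) le_rfl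
  have rb := C.mono J le_rfl ρ0 le_rfl
  rw [C.c0, zero_re] at ra rb
  obtain ⟨R, hR⟩ : ∃ R, R = min (c (-ρ)).re (c ρ).re := ⟨_, rfl⟩
  have R0 : 0 < R := by rw [hR]; exact lt_min ra rb
  have Ra : R ≤ (c (-ρ)).re := by rw [hR]; exact min_le_left _ _
  have Rb : R ≤ (c ρ).re := by rw [hR]; exact min_le_right _ _
  have cl : ∀ u, 0 ≤ max 0 (min R u) ∧ max 0 (min R u) ≤ R := fun u =>
    ⟨le_max_left _ _, max_le R0.le (min_le_left _ _)⟩
  have e1 : ∀ u, ∃ x ∈ Icc (-ρ) 0, (c x).re = max 0 (min R u) := fun u =>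
    intermediate_value_Icc' (f := fun x => (c x).re) (by linarith) (by fun_prop)
      ⟨by rw [C.c0]; exact (cl u).1, (cl u).2.trans Ra⟩
  have e2 : ∀ u, ∃ x ∈ Icc 0 ρ, (c x).re = max 0 (min R u) := fun u =>
    intermediate_value_Icc (f := fun x => (c x).re) ρ0.le (by fun_prop)
      ⟨by rw [C.c0]; exact (cl u).1, (cl u).2.trans Rb⟩
  choose φ hφ hφr using e1
  choose ψ hψ hψr using e2
  have i1 : ∀ x y, x ∈ Icc (-ρ) 0 → y ∈ Icc (-ρ) 0 → (c x).re = (c y).re → x = y := by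
    intro x y hx hy h
    rcases lt_trichotomy x y with h1 | h1 | h1
    · have := C.anti J hx.1 h1 hy.2; linarith
    · exact h1
    · have := C.anti J hy.1 h1 hx.2; linarith
  have i2 : ∀ x y, x ∈ Icc 0 ρ → y ∈ Icc 0 ρ → (c x).re = (c y).re → x = y := by
    intro x y hx hy h
    rcases lt_trichotomy x y with h1 | h1 | h1
    · have := C.mono J hx.1 h1 hy.2; linarith
    · exact h1
    · have := C.mono J hy.1 h1 hx.2; linarith
  have lf : ∀ u v, |(c (φ u)).im - (c (φ v)).im| ≤ |u - v| / 4 := by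
    intro u v
    have hl := clamp_lip R u v
    rcases lt_trichotomy (φ u) (φ v) with h1 | h1 | h1
    · have := C.lo _ _ (hφ u).1 h1 (hφ v).2
      rw [sub_im, sub_re, hφr, hφr] at this
      rw [abs_sub_comm]
      have h3 := le_abs_self (max 0 (min R u) - max 0 (min R v))
      linarith
    · rw [h1, sub_self, abs_zero]; positivity
    · have := C.lo _ _ (hφ v).1 h1 (hφ u).2
      rw [sub_im, sub_re, hφr, hφr] at this
      have h3 := neg_abs_le (max 0 (min R u) - max 0 (min R v))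
      linarith
  have lg : ∀ u v, |(c (ψ u)).im - (c (ψ v)).im| ≤ |u - v| / 4 := by
    intro u v
    have hl := clamp_lip R u v
    rcases lt_trichotomy (ψ u) (ψ v) with h1 | h1 | h1
    · have := C.up _ _ (hψ u).1 h1 (hψ v).2
      rw [sub_im, sub_re, hψr, hψr] at this
      rw [abs_sub_comm]
      have h3 := neg_abs_le (max 0 (min R u) - max 0 (min R v))
      linarith
    · rw [h1, sub_self, abs_zero]; positivity
    · have := C.up _ _ (hψ v).1 h1 (hψ u).2
      rw [sub_im, sub_re, hψr, hψr] at this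
      have h3 := le_abs_self (max 0 (min R u) - max 0 (min R v))
      linarith
  have z1 : φ 0 = 0 := i1 _ _ (hφ 0) ⟨by linarith, le_rfl⟩ (by
    rw [hφr, clamp_id le_rfl R0.le, C.c0]; rfl)
  have z2 : ψ 0 = 0 := i2 _ _ (hψ 0) ⟨le_rfl, ρ0.le⟩ (by
    rw [hψr, clamp_id le_rfl R0.le, C.c0]; rfl)
  refine ⟨fun u => (c (φ u)).im, fun u => (c (ψ u)).im, R, ⟨lf, lg, ?_, ?_, R0, hR⟩, ?_, ?_, ?_, ?_⟩
  · simp only [z1, C.c0, zero_im]
  · simp only [z2, C.c0, zero_im]
  · intro u h0 h1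
    have a1 := hφr u
    rw [clamp_id h0 h1.le] at a1
    refine ⟨φ u, ?_, (hφ u).2, Complex.ext a1 rfl⟩
    refine lt_of_le_of_ne (hφ u).1 fun h => ?_
    rw [← h] at a1; linarith
  · intro u h0 h1
    have a1 := hψr u
    rw [clamp_id h0 h1.le] at a1
    refine ⟨ψ u, (hψ u).1, ?_, Complex.ext a1 rfl⟩
    refine lt_of_le_of_ne (hψ u).2 fun h => ?_
    rw [h] at a1; linarith
  · intro x h0 h1 h2
    have hx0 : 0 ≤ (c x).re := by
      rcases eq_or_lt_of_le h1 with h | h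
      · rw [h, C.c0, zero_re]
      · have := C.anti J h0 h le_rfl
        rw [C.c0, zero_re] at this; exact this.le
    have a1 := hφr (c x).re
    rw [clamp_id hx0 h2] at a1
    have := i1 _ _ (hφ _) ⟨h0, h1⟩ a1
    exact Complex.ext rfl (by simp only [this])
  · intro x h0 h1 h2
    have hx0 : 0 ≤ (c x).re := by
      rcases eq_or_lt_of_le h0 with h | h
      · rw [← h, C.c0, zero_re]
      · have := C.mono J le_rfl h h1
        rw [C.c0, zero_re] at this; exact this.le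
    have a1 := hψr (c x).re
    rw [clamp_id hx0 h2] at a1
    have := i2 _ _ (hψ _) ⟨h0, h1⟩ a1
    exact Complex.ext rfl (by simp only [this])

theorem lip_cont {f : ℝ → ℝ} (hf : ∀ x y, |f x - f y| ≤ |x - y| / 4) : Continuous f := by
  rw [Metric.continuous_iff]
  intro b ε hε
  refine ⟨ε, hε, fun a ha => ?_⟩
  rw [Real.dist_eq] at ha ⊢
  have := hf a b
  have := abs_nonneg (a - b)
  linarith

/-- one of the branches is the lower one -/
theorem Cz.dich (C : Cz c ρ) (L : Loop c) (J : Inj c) :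
    (∀ x y, -ρ ≤ x → x < 0 → 0 < y → y ≤ ρ → (c x).re = (c y).re → (c x).im < (c y).im) ∨
    (∀ x y, -ρ ≤ x → x < 0 → 0 < y → y ≤ ρ → (c x).re = (c y).re → (c y).im < (c x).im) := by
  have ρ0 := C.ρ0
  have ρ1 := C.ρ1
  obtain ⟨f, h, R, ⟨hf, hh, f0, h0, R0, hR⟩, -, -, q1, q2⟩ := C.graphs L J
  have vals : ∀ x y, -ρ ≤ x → x < 0 → 0 < y → y ≤ ρ → (c x).re = (c y).re →
      (c x).re ∈ Ioc 0 R ∧ (c x).im = f (c x).re ∧ (c y).im = h (c x).re := by
    intro x y h1 h2 h3 h4 h5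
    have a1 := C.anti J h1 h2 le_rfl
    rw [C.c0, zero_re] at a1
    have a2 : (c x).re ≤ (c (-ρ)).re := by
      rcases eq_or_lt_of_le h1 with h' | h'
      · rw [h']
      · exact (C.anti J le_rfl h' h2.le).le
    have a3 : (c x).re ≤ (c ρ).re := by
      rw [h5]
      rcases eq_or_lt_of_le h4 with h' | h'
      · rw [h']
      · exact (C.mono J h3.le h' le_rfl).le
    have a4 : (c x).re ≤ R := by rw [hR]; exact le_min a2 a3
    have a5 := q1 x h1 h2.le a4
    have a6 := q2 y h3.le h4 (by rw [← h5]; exact a4)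
    refine ⟨⟨a1, a4⟩, congrArg Complex.im a5, ?_⟩
    have := congrArg Complex.im a6
    rw [← h5] at this
    exact this
  have ne : ∀ u ∈ Ioc 0 R, h u - f u ≠ 0 := by
    intro u hu h5
    have ra : R ≤ (c (-ρ)).re := by rw [hR]; exact min_le_left _ _
    have rb : R ≤ (c ρ).re := by rw [hR]; exact min_le_right _ _
    have cc := L.cont
    obtain ⟨x, hx, ex⟩ := intermediate_value_Icc' (f := fun x => (c x).re) (a := -ρ) (b := 0)
      (by linarith) (by fun_prop) (show u ∈ Icc _ _ from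
        ⟨by rw [C.c0, zero_re]; exact hu.1.le, hu.2.trans ra⟩)
    obtain ⟨y, hy, ey⟩ := intermediate_value_Icc (f := fun x => (c x).re) (a := 0) (b := ρ)
      ρ0.le (by fun_prop) (show u ∈ Icc _ _ from
        ⟨by rw [C.c0, zero_re]; exact hu.1.le, hu.2.trans rb⟩)
    simp only at ex ey
    have x0 : x < 0 := lt_of_le_of_ne hx.2 fun h => by
      rw [h, C.c0, zero_re] at ex; linarith [hu.1]
    have y0 : 0 < y := lt_of_le_of_ne hy.1 fun h => by
      rw [← h, C.c0, zero_re] at ey; linarith [hu.1]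
    obtain ⟨-, v1, v2⟩ := vals x y hx.1 x0 y0 hy.2 (ex.trans ey.symm)
    rw [ex] at v1 v2
    exact J x y (by linarith) (by linarith [hx.1, hy.2])
      (Complex.ext (ex.trans ey.symm) (by rw [v1, v2]; linarith))
  have cf := lip_cont hf
  have ch := lip_cont hh
  have key : ∀ u ∈ Ioc 0 R, ∀ v ∈ Ioc 0 R, 0 < (h u - f u) * (h v - f v) := fun u hu v hv =>
    Pool.Agent.Y535.PEG.sign_pre (V := Ioc 0 R) isPreconnected_Ioc (f := fun u => h u - f u)
      (by fun_prop) ne hu hv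
  have hRR : R ∈ Ioc 0 R := ⟨R0, le_rfl⟩
  rcases lt_or_gt_of_ne (ne R hRR) with h1 | h1
  · right
    intro x y k1 k2 k3 k4 k5
    obtain ⟨v0, v1, v2⟩ := vals x y k1 k2 k3 k4 k5
    have := key _ v0 R hRR
    have := neg_of_mul_pos_left this h1.le
    rw [v1, v2]; linarith
  · left
    intro x y k1 k2 k3 k4 k5
    obtain ⟨v0, v1, v2⟩ := vals x y k1 k2 k3 k4 k5
    have := key _ v0 R hRR
    have := (mul_pos_iff_of_pos_right h1).1 this
    rw [v1, v2]; linarith

theorem Cn.graphs (C : Cn c ρ) (L : Loop c) (J : Inj c) : ∃ (f g : ℝ → ℝ) (R : ℝ), Gr f g R ∧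
    (∀ u, 0 ≤ u → u < R → ∃ x, -ρ < x ∧ x ≤ 0 ∧ c x = ⟨u, f u⟩) ∧
    (∀ u, 0 ≤ u → u < R → ∃ x, 0 ≤ x ∧ x < ρ ∧ c x = ⟨u, g u⟩) ∧
    (∀ x, -ρ ≤ x → x ≤ 0 → (c x).re ≤ R → c x = ⟨(c x).re, f (c x).re⟩) ∧
    (∀ x, 0 ≤ x → x ≤ ρ → (c x).re ≤ R → c x = ⟨(c x).re, g (c x).re⟩) := by
  have ρ0 := C.ρ0
  obtain ⟨f, h, R, ⟨hf, hh, f0, h0, R0, hR⟩, p1, p2, q1, q2⟩ := C.toCz.graphs L J
  have ra : R ≤ (c (-ρ)).re := by rw [hR]; exact min_le_left _ _
  have rb : R ≤ (c ρ).re := by rw [hR]; exact min_le_right _ _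
  have cc := L.cont
  refine ⟨f, h, R, ⟨hf, hh, f0, h0, R0, fun u u0 u1 => ?_⟩, p1, p2, q1, q2⟩
  obtain ⟨x, hx, ex⟩ := intermediate_value_Icc' (f := fun x => (c x).re) (a := -ρ) (b := 0)
    (by linarith) (by fun_prop) (show u ∈ Icc _ _ from
      ⟨by rw [C.c0, zero_re]; exact u0.le, u1.trans ra⟩)
  obtain ⟨y, hy, ey⟩ := intermediate_value_Icc (f := fun x => (c x).re) (a := 0) (b := ρ)
    ρ0.le (by fun_prop) (show u ∈ Icc _ _ from
      ⟨by rw [C.c0, zero_re]; exact u0.le, u1.trans rb⟩)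
  simp only at ex ey
  have x0 : x < 0 := lt_of_le_of_ne hx.2 fun h => by
    rw [h, C.c0, zero_re] at ex; linarith
  have y0 : 0 < y := lt_of_le_of_ne hy.1 fun h => by
    rw [← h, C.c0, zero_re] at ey; linarith
  have a5 := q1 x hx.1 hx.2 (by rw [ex]; exact u1)
  have a6 := q2 y hy.1 hy.2 (by rw [ey]; exact u1)
  have := C.low x y hx.1 x0 y0 hy.2 (ex.trans ey.symm)
  rw [a5, a6, ex, ey] at this
  exact this

/-- **The number of half turns does not change across a cusp in normal position.** -/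
theorem Cn.level (C : Cn c ρ) (L : Loop c) (J : Inj c) (hM : Continuous M)
    (hz : ∀ z, M z = 0 → z ∈ range c) (A : Ang c M θ g) :
    ∃ xa yb, -ρ < xa ∧ xa < 0 ∧ 0 < yb ∧ yb < ρ ∧ ∀ x' y', xa < x' → x' < 0 → 0 < y' → y' < yb →
      ⌊θ xa x' / Real.pi⌋ = ⌊θ y' yb / Real.pi⌋ := by
  have ρ0 := C.ρ0
  have ρ1 := C.ρ1
  obtain ⟨f, h, R, G, p1, p2, q1, q2⟩ := C.graphs L J
  have R0 := G.R0
  obtain ⟨r0, hr0, hnear⟩ := Pool.Agent.Y535.PEG.near_par L J ρ0
  obtain ⟨r, hr, hrr0, hrR⟩ : ∃ r > 0, r ≤ r0 ∧ r ≤ R :=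
    ⟨min r0 R, lt_min hr0 R0, min_le_left _ _, min_le_right _ _⟩
  have nonneg_lo : ∀ x, -ρ ≤ x → x ≤ 0 → 0 ≤ (c x).re := by
    intro x h0 h1
    rcases eq_or_lt_of_le h1 with h | h
    · rw [h, C.c0, zero_re]
    · have := C.anti J h0 h le_rfl
      rw [C.c0, zero_re] at this; exact this.le
  have nonneg_up : ∀ x, 0 ≤ x → x ≤ ρ → 0 ≤ (c x).re := by
    intro x h0 h1
    rcases eq_or_lt_of_le h0 with h | h
    · rw [← h, C.c0, zero_re]
    · have := C.mono J le_rfl h h1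
      rw [C.c0, zero_re] at this; exact this.le
  have fg : ∀ u, 0 ≤ u → u ≤ R → f u ≤ h u := by
    intro u h0 h1
    rcases eq_or_lt_of_le h0 with h' | h'
    · rw [← h', G.f0, G.g0]
    · exact (G.fg u h' h1).le
  obtain ⟨m, hm⟩ := out_sign G hM hr (fun z hzr h0 => by
    obtain ⟨s, hs⟩ := hz z h0
    obtain ⟨n, e, he, hse⟩ := hnear s 0 (by
      rw [C.c0, sub_zero, hs]; exact hzr.trans_le hrr0)
    have hce : c s = c e := by rw [hse, zero_add, L.per_int]
    rw [abs_lt] at he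
    have hre : (c e).re < R := by
      rw [← hce, hs]
      exact (re_le_norm z).trans_lt (hzr.trans_le hrR)
    rcases le_total e 0 with h1 | h1
    · have e0 := nonneg_lo e he.1.le h1
      have := q1 e he.1.le h1 hre.le
      have hzz : z = ⟨(c e).re, f (c e).re⟩ := by rw [← hs, hce]; exact this
      rw [hzz]
      exact ⟨e0, le_rfl, fg _ e0 hre.le⟩
    · have e0 := nonneg_up e h1 he.2.le
      have := q2 e h1 he.2.le hre.le
      have hzz : z = ⟨(c e).re, h (c e).re⟩ := by rw [← hs, hce]; exact this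
      rw [hzz]
      exact ⟨e0, fg _ e0 hre.le, le_rfl⟩)
  obtain ⟨R', hR', hR'1, hR'2⟩ : ∃ R' > 0, R' ≤ R / 3 ∧ R' ≤ r / 100 :=
    ⟨min (R / 3) (r / 100), lt_min (by linarith) (by linarith), min_le_left _ _, min_le_right _ _⟩
  obtain ⟨a, d, d0, da, aR, ha1, ha2⟩ := exists_plus G.hf G.hg G.f0 G.g0 hR'
    (fun x h0 h1 => G.fg x h0 (by linarith))
  have a0 : 0 < a := d0.trans da
  obtain ⟨xa, xa1, xa2, hxa⟩ := p1 a a0.le (by linarith)
  obtain ⟨yb, yb1, yb2, hyb⟩ := p2 (2 * a) (by linarith) (by linarith)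
  have xa3 : xa < 0 := lt_of_le_of_ne xa2 fun h => by
    rw [h, C.c0] at hxa
    have := congrArg Complex.re hxa
    simp only [zero_re] at this
    linarith
  have yb3 : 0 < yb := lt_of_le_of_ne yb1 fun h => by
    rw [← h, C.c0] at hyb
    have := congrArg Complex.re hyb
    simp only [zero_re] at this
    linarith
  have xare : (c xa).re = a := by rw [hxa]
  have ybre : (c yb).re = 2 * a := by rw [hyb]
  -- coordinates of the points of the small arc
  have lo' : ∀ s, xa ≤ s → s ≤ 0 → 0 ≤ (c s).re ∧ (c s).re ≤ a ∧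
      c s = ⟨(c s).re, f (c s).re⟩ := by
    intro s h1 h2
    have h3 : (c s).re ≤ a := by
      rcases eq_or_lt_of_le h1 with h | h
      · rw [← h, xare]
      · rw [← xare]; exact (C.anti J xa1.le h h2).le
    exact ⟨nonneg_lo s (by linarith) h2, h3, q1 s (by linarith) h2 (by linarith)⟩
  have up' : ∀ s, 0 ≤ s → s ≤ yb → 0 ≤ (c s).re ∧ (c s).re ≤ 2 * a ∧
      c s = ⟨(c s).re, h (c s).re⟩ := by
    intro s h1 h2
    have h3 : (c s).re ≤ 2 * a := by
      rcases eq_or_lt_of_le h2 with h | h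
      · rw [h, ybre]
      · rw [← ybre]; exact (C.mono J h1 h yb2.le).le
    exact ⟨nonneg_up s h1 (by linarith), h3, q2 s h1 (by linarith) (by linarith)⟩
  have small : ∀ s, xa ≤ s → s ≤ yb → ‖c s‖ ≤ 5 / 2 * a := by
    intro s h1 h2
    rcases le_total s 0 with h3 | h3
    · obtain ⟨k1, k2, k3⟩ := lo' s h1 h3
      rw [k3]
      refine (norm_le_abs_re_add_abs_im _).trans ?_
      have := G.fa k1
      rw [G.f0, sub_zero, sub_zero] at this
      simp only
      rw [abs_of_nonneg k1]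
      linarith
    · obtain ⟨k1, k2, k3⟩ := up' s h3 h2
      rw [k3]
      refine (norm_le_abs_re_add_abs_im _).trans ?_
      have := G.ga k1
      rw [G.g0, sub_zero, sub_zero] at this
      simp only
      rw [abs_of_nonneg k1]
      linarith
  have smallD : ∀ s t, xa ≤ s → s ≤ yb → xa ≤ t → t ≤ yb → ‖DD c s t‖ < r / 8 := by
    intro s t h1 h2 h3 h4
    have k1 := small s h1 h2
    have k2 := small t h3 h4
    rw [DD_eq]
    have k3 := norm_add_le (c s) (I * (c t - c s))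
    rw [norm_mul, norm_I, one_mul] at k3
    have k4 := norm_sub_le (c t) (c s)
    linarith
  have smallC : ∀ s t, xa ≤ s → s ≤ yb → xa ≤ t → t ≤ yb → ‖CC c s t‖ < r / 8 := by
    intro s t h1 h2 h3 h4
    have k1 := small s h1 h2
    have k2 := small t h3 h4
    rw [CC_eq]
    have k3 := norm_add_le (c t) (I * (c t - c s))
    rw [norm_mul, norm_I, one_mul] at k3
    have k4 := norm_sub_le (c t) (c s)
    linarith
  have reD : ∀ s t, (DD c s t).re = (c s).re - ((c t).im - (c s).im) := fun s t => by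
    rw [DD_eq]; simp; ring
  have imD : ∀ s t, (DD c s t).im = (c s).im + ((c t).re - (c s).re) := fun s t => by
    rw [DD_eq]; simp
  have reC : ∀ s t, (CC c s t).re = (c t).re - ((c t).im - (c s).im) := fun s t => by
    rw [CC_eq]; simp; ring
  have imC : ∀ s t, (CC c s t).im = (c t).im + ((c t).re - (c s).re) := fun s t => by
    rw [CC_eq]; simp
  -- chords of the lower branch
  have cLL : ∀ s t, xa ≤ s → s < t → t ≤ 0 → 0 < m * M (DD c s t) ∧ 0 < m * M (CC c s t) := by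
    intro s t h1 h2 h3
    obtain ⟨k1, k2, k3⟩ := lo' s h1 (by linarith)
    obtain ⟨l1, l2, l3⟩ := lo' t (by linarith) h3
    have k4 : (c s).im = f (c s).re := by rw [k3]
    have l4 : (c t).im = f (c t).re := by rw [l3]
    obtain ⟨o1, o2⟩ := G.lowlow (C.anti J (by linarith) h2 h3)
    constructor
    · refine hm _ (smallD s t h1 (by linarith) (by linarith) (by linarith)) fun hW => ?_
      have := hW.2.1
      rw [reD, imD, k4, l4] at this
      linarith
    · refine hm _ (smallC s t h1 (by linarith) (by linarith) (by linarith)) fun hW => ?_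
      have := hW.2.1
      rw [reC, imC, k4, l4] at this
      linarith
  -- chords of the upper branch
  have cUU : ∀ s t, 0 ≤ s → s < t → t ≤ yb → 0 < m * M (DD c s t) ∧ 0 < m * M (CC c s t) := by
    intro s t h1 h2 h3
    obtain ⟨k1, k2, k3⟩ := up' s h1 (by linarith)
    obtain ⟨l1, l2, l3⟩ := up' t (by linarith) h3
    have k4 : (c s).im = h (c s).re := by rw [k3]
    have l4 : (c t).im = h (c t).re := by rw [l3]
    obtain ⟨o1, o2⟩ := G.upup (C.mono J h1 h2 (by linarith))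
    constructor
    · refine hm _ (smallD s t (by linarith) (by linarith) (by linarith) h3) fun hW => ?_
      have := hW.2.2
      rw [reD, imD, k4, l4] at this
      linarith
    · refine hm _ (smallC s t (by linarith) (by linarith) (by linarith) h3) fun hW => ?_
      have := hW.2.2
      rw [reC, imC, k4, l4] at this
      linarith
  -- chords from the fixed point of the lower branch to the upper branch
  have cX : ∀ t, 0 ≤ t → t ≤ yb → 0 < m * M (DD c xa t) ∨ 0 < m * M (CC c xa t) := by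
    intro t h1 h2
    obtain ⟨l1, l2, l3⟩ := up' t h1 h2
    have k4 : (c xa).im = f a := by rw [hxa]
    have l4 : (c t).im = h (c t).re := by rw [l3]
    by_cases hW : Wc f h (DD c xa t).re (DD c xa t).im
    · right
      refine hm _ (smallC xa t le_rfl (by linarith) (by linarith) h2) ?_
      rw [reD, imD, k4, l4, xare] at hW
      have := G.cross ha1 ha2 hW
      rwa [reC, imC, k4, l4, xare]
    · left
      exact hm _ (smallD xa t le_rfl (by linarith) (by linarith) h2) hW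
  -- long chords from the lower branch to the upper branch
  have cLU : ∀ s, xa ≤ s → s ≤ 0 → 0 < m * M (DD c s yb) := by
    intro s h1 h2
    obtain ⟨k1, k2, k3⟩ := lo' s h1 h2
    have k4 : (c s).im = f (c s).re := by rw [k3]
    have l4 : (c yb).im = h (2 * a) := by rw [hyb]
    refine hm _ (smallD s yb h1 (by linarith) (by linarith) le_rfl) fun hW => ?_
    have := hW.2.2
    rw [reD, imD, k4, l4, ybre] at this
    have o := G.lowup k1 (b := 2 * a) (by linarith) (by linarith)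
    linarith
  refine ⟨xa, yb, xa1, xa3, yb3, yb2, fun x' y' hx1 hx2 hy1 hy2 => ?_⟩
  obtain ⟨S, hS⟩ : ∃ S : Set (ℝ × ℝ), S = (fun t => ((xa, t) : ℝ × ℝ)) '' Ioc xa yb ∪
      (fun t => ((t, yb) : ℝ × ℝ)) '' Ico xa yb := ⟨_, rfl⟩
  have pS : IsPreconnected S := by
    rw [hS]
    refine IsPreconnected.union (xa, yb) ⟨yb, ⟨by linarith, le_rfl⟩, rfl⟩
      ⟨xa, ⟨le_rfl, by linarith⟩, rfl⟩ ?_ ?_
    · exact isPreconnected_Ioc.image _ (by fun_prop)
    · exact isPreconnected_Ico.image _ (by fun_prop)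
  refine lev A (m := m) pS ?_ ?_ (p := (xa, x')) (q := (y', yb)) ?_ ?_ ?_ ?_
  · rw [hS]
    rintro p (⟨t, ht, rfl⟩ | ⟨t, ht, rfl⟩)
    · exact ⟨ht.1, by simp only; linarith [ht.2]⟩
    · exact ⟨ht.2, by simp only; linarith [ht.1]⟩
  · rw [hS]
    rintro p (⟨t, ht, rfl⟩ | ⟨t, ht, rfl⟩)
    · rcases le_total t 0 with h1 | h1
      · exact Or.inl (cLL xa t le_rfl ht.1 h1).1
      · exact cX t h1 ht.2
    · rcases le_total t 0 with h1 | h1
      · exact Or.inl (cLU t ht.1 h1)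
      · exact Or.inl (cUU t yb h1 ht.2 le_rfl).1
  · rw [hS]; exact Or.inl ⟨x', ⟨hx1, by linarith⟩, rfl⟩
  · rw [hS]; exact Or.inr ⟨y', ⟨by linarith, hy2⟩, rfl⟩
  · exact cLL xa x' le_rfl hx1 hx2.le
  · exact cUU y' yb hy1.le hy2 le_rfl

end Pool.Agent.T2h7.Csp
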